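import Pool.Agent.Helper418_HL.Defs

/-!
# Irreducible embeddings of property (T) factors into matrix ultraproducts: definitions

Matrices `Mt d`, the squared (unnormalised) Hilbert-Schmidt norm `hs` and the projections `IsPr` are
those of `Pool.Agent.W661.RC.Defs`.
-/

set_option autoImplicit false

namespace Helper418TRC

open Matrix Filter Topology Pool.Agent.W661.RC Pool.Agent.W683.RC Helper418HL

/-- the Hermitian form of `χ` -/
abbrev form {G : Type} [Group G] (χ : G → ℂ) (s : Finset G) (c : G → ℂ) : ℂ :=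
  ∑ a ∈ s, ∑ b ∈ s, star (c a) * c b * χ (a⁻¹ * b)

/-- A character of the group `G`: a normalised, conjugation invariant function of positive type. -/
structure IsChar {G : Type} [Group G] (χ : G → ℂ) : Prop where
  one : χ 1 = 1
  conj : ∀ g h : G, χ (h * g * h⁻¹) = χ g
  pos : ∀ (s : Finset G) (c : G → ℂ), 0 ≤ (form χ s c).re ∧ (form χ s c).im = 0

/-- An extreme character: it is not a proper convex combination of two characters in a nontrivial
way. (The GNS von Neumann algebra of `χ` is then a factor.) -/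
def IsExt {G : Type} [Group G] (χ : G → ℂ) : Prop :=
  IsChar χ ∧ ∀ φ ψ : G → ℂ, IsChar φ → IsChar ψ → ∀ t : ℝ, 0 < t → t < 1 →
    (∀ g, χ g = t * φ g + (1 - t) * ψ g) → ∀ g, φ g = χ g

/-- The GNS space of `χ` is infinite dimensional: there are arbitrarily many group elements with an
invertible Gram matrix. -/
def IsInf {G : Type} [Group G] (χ : G → ℂ) : Prop :=
  ∀ N : ℕ, ∃ s : Fin N → G, (Matrix.of fun i j => χ ((s i)⁻¹ * s j)).det ≠ 0

/-- `χ` is approximated by almost multiplicative maps into unitary groups of matrices (the GNS von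
Neumann algebra of `χ` is Connes embeddable). -/
def Emb {G : Type} [Group G] (χ : G → ℂ) : Prop :=
  ∀ (F : Finset G) (ε : ℝ), 0 < ε → ∃ n : ℕ, 1 ≤ n ∧ ∃ φ : G → Mt n,
    (∀ g, (φ g)ᴴ * φ g = 1) ∧ (∀ g ∈ F, ∀ h ∈ F, hs (φ (g * h) - φ g * φ h) ≤ ε * n) ∧
      ∀ g ∈ F, ‖Matrix.trace (φ g) - n * χ g‖ ≤ ε * n

open Classical in
/-- The characteristic function of the identity; its GNS von Neumann algebra is the group von Neumann
algebra `L(G)`. -/
noncomputable def dlt {G : Type} [Group G] (g : G) : ℂ := if g = 1 then 1 else 0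

/-- the traces of the model `M` converge to `χ` -/
def TrTo {G : Type} [Group G] {𝒰 : Ultrafilter ℕ} (M : Mdl G 𝒰) (χ : G → ℂ) : Prop :=
  ∀ g, Tendsto (fun n => Matrix.trace (M.U g n) / (M.d n : ℂ)) 𝒰 (𝓝 (χ g))

/-- the matrices `p n` asymptotically commute with the model -/
def AC {G : Type} [Group G] {𝒰 : Ultrafilter ℕ} (M : Mdl G 𝒰) (p : ∀ n, Mt (M.d n)) : Prop :=
  ∀ g, Tendsto (fun n => hs (M.U g n * p n - p n * M.U g n) / (M.d n : ℝ)) 𝒰 (𝓝 0)

end Helper418TRC
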