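import Pool.Agent.Helper418_TRC.T1

set_option autoImplicit false

namespace Helper418TRC

open Matrix Filter Topology Pool.Agent.W661.RC Pool.Agent.W683.RC Helper418HL
open scoped ComplexOrder

namespace T2

theorem norm_trace_unit_pr {d : ℕ} {u p : Mt d} (hu : uᴴ * u = 1) (hp : IsPr p) :
    ‖Matrix.trace (u * p)‖ ≤ tr p := by
  have h := norm_trace_le (u * p)ᴴ p
  rw [Matrix.conjTranspose_conjTranspose, Matrix.mul_assoc, hp.2, hs_conjTranspose,
    hs_unit_mul hu, Real.mul_self_sqrt (hs_nonneg p), ← pr_tr_eq_hs hp] at h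
  exact h

theorem pr_tr_le {d : ℕ} {p : Mt d} (hp : IsPr p) : tr p ≤ d := by
  have h := Le_tr (pr_le_one hp)
  rwa [tr_one] at h

theorem ratio_le {d : ℕ} (hd : 0 < d) {u p : Mt d} (hu : uᴴ * u = 1) (hp : IsPr p) :
    ‖Matrix.trace (u * p) / (d : ℂ)‖ ≤ tr p / (d : ℝ) := by
  rw [norm_div, Complex.norm_natCast]
  have hd' : (0 : ℝ) < d := by exact_mod_cast hd
  exact div_le_div_of_nonneg_right (norm_trace_unit_pr hu hp) hd'.le

theorem ac_compl {G : Type} [Group G] {𝒰 : Ultrafilter ℕ} {M : Mdl G 𝒰} {p : ∀ n, Mt (M.d n)}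
    (hac : AC M p) : AC M (fun n => 1 - p n) := by
  intro g
  refine (hac g).congr fun n => ?_
  have e : M.U g n * (1 - p n) - (1 - p n) * M.U g n = -(M.U g n * p n - p n * M.U g n) := by
    rw [Matrix.mul_sub, Matrix.sub_mul, Matrix.mul_one, Matrix.one_mul]
    abel
  show _ = hs (M.U g n * (1 - p n) - (1 - p n) * M.U g n) / (M.d n : ℝ)
  rw [e, hs_neg]

end T2

open T2 in
/-- TARGET -/
theorem sub_tr {G : Type} [Group G] {𝒰 : Ultrafilter ℕ} (M : Mdl G 𝒰) {χ : G → ℂ} (hχ : IsExt χ)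
    (hM : TrTo M χ) (p : ∀ n, Mt (M.d n)) (hp : ∀ n, IsPr (p n)) (hac : AC M p) (g : G) :
    Tendsto (fun n => (Matrix.trace (M.U g n * p n) - (tr (p n) : ℂ) * χ g) / (M.d n : ℂ)) 𝒰 (𝓝 0) := by
  have hd : ∀ n, (0 : ℝ) < (M.d n : ℝ) := fun n => by exact_mod_cast M.pos n
  have hdc : ∀ n, (M.d n : ℂ) ≠ 0 := fun n => by exact_mod_cast (M.pos n).ne'
  have hq : ∀ n, IsPr (1 - p n) := fun n => pr_compl (hp n)
  -- the limit of the normalised traces
  obtain ⟨α, hα, hlim⟩ : ∃ α ∈ Set.Icc (0 : ℝ) 1,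
      Tendsto (fun n => tr (p n) / (M.d n : ℝ)) 𝒰 (𝓝 α) := by
    have h := isCompact_Icc.ultrafilter_le_nhds (𝒰.map fun n => tr (p n) / (M.d n : ℝ))
      (s := Set.Icc (0 : ℝ) 1) (by
        rw [le_principal_iff, Ultrafilter.mem_coe, Ultrafilter.mem_map]
        refine Filter.Eventually.of_forall (f := (𝒰 : Filter ℕ)) fun n => ?_
        exact ⟨div_nonneg (pr_tr_nonneg (hp n)) (hd n).le,
          (div_le_one (hd n)).2 (pr_tr_le (hp n))⟩)
    obtain ⟨α, h1, h2⟩ := h
    exact ⟨α, h1, h2⟩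
  -- the limits of the normalised traces of `U h p`
  have hL : ∀ h : G, ∃ L : ℂ,
      Tendsto (fun n => Matrix.trace (M.U h n * p n) / (M.d n : ℂ)) 𝒰 (𝓝 L) := by
    intro h
    have h := (isCompact_closedBall (0 : ℂ) 1).ultrafilter_le_nhds
      (𝒰.map fun n => Matrix.trace (M.U h n * p n) / (M.d n : ℂ)) (by
        rw [le_principal_iff, Ultrafilter.mem_coe, Ultrafilter.mem_map]
        refine Filter.Eventually.of_forall (f := (𝒰 : Filter ℕ)) fun n => ?_
        rw [mem_closedBall_zero_iff]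
        exact (ratio_le (M.pos n) (M.un h n) (hp n)).trans ((div_le_one (hd n)).2 (pr_tr_le (hp n))))
    obtain ⟨L, _, h2⟩ := h
    exact ⟨L, h2⟩
  choose L hL using hL
  -- the complement
  have hlimq : Tendsto (fun n => tr (1 - p n) / (M.d n : ℝ)) 𝒰 (𝓝 (1 - α)) := by
    refine (tendsto_const_nhds.sub hlim).congr fun n => ?_
    rw [tr_sub, tr_one, sub_div, div_self (hd n).ne']
  have hLq : ∀ h : G, Tendsto (fun n => Matrix.trace (M.U h n * (1 - p n)) / (M.d n : ℂ)) 𝒰
      (𝓝 (χ h - L h)) := by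
    intro h
    refine ((hM h).sub (hL h)).congr fun n => ?_
    rw [Matrix.mul_sub, Matrix.mul_one, Matrix.trace_sub, sub_div]
  have hn1 : ∀ h, ‖L h‖ ≤ α := fun h =>
    le_of_tendsto_of_tendsto' (hL h).norm hlim fun n => ratio_le (M.pos n) (M.un h n) (hp n)
  have hn2 : ∀ h, ‖χ h - L h‖ ≤ 1 - α := fun h =>
    le_of_tendsto_of_tendsto' (hLq h).norm hlimq fun n => ratio_le (M.pos n) (M.un h n) (hq n)
  have key : L g = α * χ g := by
    rcases hα.1.eq_or_lt with h0 | h0
    · have := hn1 g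
      rw [← h0] at this
      rw [norm_le_zero_iff.1 this, ← h0]
      simp
    rcases hα.2.eq_or_lt with h1 | h1
    · have := hn2 g
      rw [h1, sub_self] at this
      have e := norm_le_zero_iff.1 this
      rw [h1]
      rw [sub_eq_zero] at e
      rw [← e]
      simp
    have ha : (α : ℂ) ≠ 0 := by exact_mod_cast h0.ne'
    have hb : 0 < 1 - α := by linarith
    have hb' : ((1 - α : ℝ) : ℂ) ≠ 0 := by exact_mod_cast hb.ne'
    have c1 : IsChar fun h => L h / α := char_lim M p hp hac α h0 hlim _ fun h => by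
      rw [mul_div_cancel₀ _ ha]
      exact hL h
    have c2 : IsChar fun h => (χ h - L h) / ((1 - α : ℝ) : ℂ) :=
      char_lim M (fun n => 1 - p n) hq (ac_compl hac) (1 - α) hb hlimq _ fun h => by
        rw [mul_div_cancel₀ _ hb']
        exact hLq h
    have e := hχ.2 _ _ c1 c2 α h0 h1 (fun h => by
      have hb2 : (1 - (α : ℂ)) ≠ 0 := by
        have := hb'
        push_cast at this
        exact this
      push_cast
      field_simp
      ring) g
    have e' : L g / α = χ g := e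
    rw [← e']
    field_simp
  have hfin : Tendsto (fun n => Matrix.trace (M.U g n * p n) / (M.d n : ℂ) -
      ((tr (p n) / (M.d n : ℝ) : ℝ) : ℂ) * χ g) 𝒰 (𝓝 (L g - α * χ g)) :=
    (hL g).sub (((Complex.continuous_ofReal.tendsto α).comp hlim).mul_const (χ g))
  rw [key, sub_self] at hfin
  refine hfin.congr fun n => ?_
  push_cast
  ring

end Helper418TRC
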