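import Pool.Agent.Helper418_TRC.Defs

set_option autoImplicit false

namespace Helper418TRC

open Matrix Filter Topology Pool.Agent.W661.RC Pool.Agent.W683.RC Helper418HL
open scoped ComplexOrder

namespace T3

theorem part {𝒰 : Ultrafilter ℕ} (N d : ℕ → ℕ) (z : ∀ n, Fin (N n) → ℂ) (f : ℂ → ℝ)
    (hf : Continuous f) (hadd : ∀ x y, f (x + y) = f x + f y) (h0 : f 0 = 0)
    (hdiv : ∀ (x : ℂ) (m : ℕ), f (x / (m : ℂ)) = f x / (m : ℝ))
    (h : ∀ J : ∀ n, Finset (Fin (N n)),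
      Tendsto (fun n => (∑ j ∈ J n, z n j) / (d n : ℂ)) 𝒰 (𝓝 0)) :
    Tendsto (fun n => (∑ j, |f (z n j)|) / (d n : ℝ)) 𝒰 (𝓝 0) := by
  classical
  have hsum : ∀ (n : ℕ) (s : Finset (Fin (N n))), f (∑ j ∈ s, z n j) = ∑ j ∈ s, f (z n j) := by
    intro n s
    induction s using Finset.induction_on with
    | empty => simp [h0]
    | insert a s ha ih => rw [Finset.sum_insert ha, Finset.sum_insert ha, hadd, ih]
  have key : ∀ J : ∀ n, Finset (Fin (N n)),
      Tendsto (fun n => (∑ j ∈ J n, f (z n j)) / (d n : ℝ)) 𝒰 (𝓝 0) := by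
    intro J
    have h1 := (hf.tendsto 0).comp (h J)
    rw [h0] at h1
    refine h1.congr (fun n => ?_)
    simp only [Function.comp]
    rw [hdiv, hsum]
  have hp := key (fun n => Finset.univ.filter (fun j => 0 ≤ f (z n j)))
  have hm := key (fun n => Finset.univ.filter (fun j => ¬ 0 ≤ f (z n j)))
  have hpm := hp.sub hm
  rw [sub_zero] at hpm
  refine hpm.congr (fun n => ?_)
  rw [← sub_div]
  congr 1
  rw [← Finset.sum_filter_add_sum_filter_not Finset.univ (fun j => 0 ≤ f (z n j))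
    (fun j => |f (z n j)|), sub_eq_add_neg, ← Finset.sum_neg_distrib]
  congr 1
  · refine Finset.sum_congr rfl (fun j hj => ?_)
    rw [abs_of_nonneg (Finset.mem_filter.1 hj).2]
  · refine Finset.sum_congr rfl (fun j hj => ?_)
    rw [abs_of_neg (not_le.1 (Finset.mem_filter.1 hj).2)]

theorem gen {𝒰 : Ultrafilter ℕ} (N d : ℕ → ℕ) (z : ∀ n, Fin (N n) → ℂ)
    (h : ∀ J : ∀ n, Finset (Fin (N n)),
      Tendsto (fun n => (∑ j ∈ J n, z n j) / (d n : ℂ)) 𝒰 (𝓝 0)) :
    Tendsto (fun n => (∑ j, ‖z n j‖) / (d n : ℝ)) 𝒰 (𝓝 0) := by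
  have hre := part N d z Complex.re Complex.continuous_re (fun x y => Complex.add_re x y) rfl
    (fun x m => by rw [← Complex.ofReal_natCast, Complex.div_ofReal_re]) h
  have him := part N d z Complex.im Complex.continuous_im (fun x y => Complex.add_im x y) rfl
    (fun x m => by rw [← Complex.ofReal_natCast, Complex.div_ofReal_im]) h
  have hs := hre.add him
  rw [add_zero] at hs
  refine squeeze_zero (fun n => ?_) (fun n => ?_) hs
  · exact div_nonneg (Finset.sum_nonneg (fun j _ => norm_nonneg _)) (Nat.cast_nonneg _)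
  · rw [← add_div, ← Finset.sum_add_distrib]
    exact div_le_div_of_nonneg_right
      (Finset.sum_le_sum (fun j _ => Complex.norm_le_abs_re_add_abs_im _)) (Nat.cast_nonneg _)

theorem tr_sum {n : Type} [Fintype n] {ι : Type} (s : Finset ι) (x : ι → Matrix n n ℂ) :
    tr (∑ j ∈ s, x j) = ∑ j ∈ s, tr (x j) := by
  simp only [tr, Matrix.trace_sum, Complex.re_sum]

end T3

/-- TARGET -/
theorem sum_tr {G : Type} [Group G] {𝒰 : Ultrafilter ℕ} (M : Mdl G 𝒰) {χ : G → ℂ} (N : ℕ → ℕ)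
    (c : ∀ n, Fin (N n) → Mt (M.d n))
    (hsub : ∀ (J : ∀ n, Finset (Fin (N n))) (g : G), Tendsto (fun n =>
      (Matrix.trace (M.U g n * ∑ j ∈ J n, c n j) - (tr (∑ j ∈ J n, c n j) : ℂ) * χ g) /
        (M.d n : ℂ)) 𝒰 (𝓝 0)) (g : G) :
    Tendsto (fun n => (∑ j, ‖Matrix.trace (M.U g n * c n j) - (tr (c n j) : ℂ) * χ g‖) /
      (M.d n : ℝ)) 𝒰 (𝓝 0) := by
  refine T3.gen N M.d (fun n j => Matrix.trace (M.U g n * c n j) - (tr (c n j) : ℂ) * χ g) ?_
  intro J
  refine (hsub J g).congr (fun n => ?_)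
  congr 1
  rw [T3.tr_sum, Matrix.mul_sum, Matrix.trace_sum, Finset.sum_sub_distrib, Complex.ofReal_sum,
    Finset.sum_mul]

end Helper418TRC
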