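import Pool.Agent.Helper418_HL.HC7
import Pool.Agent.Helper418_TRC.T2
import Pool.Agent.Helper418_TRC.T3

/-!
# A typical corner of a model with extreme limit character
-/

set_option autoImplicit false

namespace Helper418TRC

open Matrix Filter Topology Pool.Agent.W661.RC Pool.Agent.W683.RC Helper418HL
open scoped ComplexOrder

namespace T4

/-- traces of the compressed unitaries -/
lemma tr_bd {d N : ℕ} {c : Mt d} {Θ : Matrix (Fin d) (Fin N) ℂ} (h1 : Θᴴ * Θ = 1)
    (h2 : Θ * Θᴴ = c) {u : Mt d} {u' : Mt N}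
    (bu : hs (Θᴴ * u * Θ - u') ≤ hs (u * c - c * u)) :
    ‖Matrix.trace u' - Matrix.trace (u * c)‖ ≤ √(N : ℝ) * √(hs (u * c - c * u)) := by
  have _ := h1
  have e1 : Matrix.trace (Θᴴ * u * Θ) = Matrix.trace (u * c) := by
    rw [← h2, Matrix.trace_mul_comm (Θᴴ * u) Θ, ← Matrix.mul_assoc, ← Matrix.mul_assoc,
      Matrix.trace_mul_comm (Θ * Θᴴ) u, Matrix.mul_assoc]
  have e2 : Matrix.trace u' - Matrix.trace (u * c) =
      -Matrix.trace ((1 : Mt N)ᴴ * (Θᴴ * u * Θ - u')) := by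
    rw [← e1, Matrix.conjTranspose_one, Matrix.one_mul, Matrix.trace_sub]
    ring
  rw [e2, norm_neg]
  refine (norm_trace_le _ _).trans ?_
  have e3 : hs (1 : Mt N) = N := by
    rw [hs_eq_tr, Matrix.conjTranspose_one, Matrix.one_mul, tr_one]
  rw [e3]
  exact mul_le_mul_of_nonneg_left (Real.sqrt_le_sqrt bu) (Real.sqrt_nonneg _)

end T4

/-- TARGET -/
theorem corner_thm2 (hUni : UniP) {G : Type} [Group G] [Countable G] {𝒰 : Ultrafilter ℕ}
    (hU : (𝒰 : Filter ℕ) ≤ cofinite) (M : Mdl G 𝒰) {k : ℕ} (γ : Fin k → G)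
    (hgen : Subgroup.closure (Set.range γ) = ⊤) {A : ∀ n, StarSubalgebra ℂ (Mt (M.d n))} {K0 : ℝ}
    {ε : ℕ → ℝ} (hC : Ctl M γ A K0 ε) {χ : G → ℂ} (hχ : IsExt χ) (hM : TrTo M χ) :
    ∃ (M' : Mdl G 𝒰) (K0' : ℝ) (ε' : ℕ → ℝ), Erg M' γ K0' ε' ∧ TrTo M' χ := by
  classical
  have hdpos : ∀ n, (0 : ℝ) < M.d n := fun n => by exact_mod_cast M.pos n
  choose N c hcA hcp hcne hcc hc1 hcmin using fun n => min_proj (A n)
  have hw : ∀ n j, 0 < tr (c n j) := fun n j =>
    lt_of_le_of_ne (pr_tr_nonneg (hcp n j)) fun h => hcne n j ((pr_eq_zero_iff (hcp n j)).2 h.symm)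
  have hsum : ∀ n, ∑ j, tr (c n j) = M.d n := by
    intro n
    rw [← tr_sum, hc1 n, tr_one]
  -- commutators with the contractions of `A`
  have hcomA : ∀ g : G, ∃ C : ℝ, 0 ≤ C ∧ ∀ t : ℝ, 0 < t → ∀ᶠ n in (𝒰 : Filter ℕ), ∀ x ∈ A n,
      Le (xᴴ * x) 1 → hs (M.U g n * x - x * M.U g n) ≤ C * t * M.d n := by
    intro g
    obtain ⟨C, hC0, hgl⟩ := gen_lin M (Set.range γ) g (hgen ▸ Subgroup.mem_top g)
    refine ⟨C, hC0, fun t ht => ?_⟩
    have h1 := hgl (fun n => {x | x ∈ A n ∧ Le (xᴴ * x) 1}) (fun n x hx => hx.2) t ht ?_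
    · filter_upwards [h1] with n hn x hx hx1
      exact hn x ⟨hx, hx1⟩
    · rintro _ ⟨s, rfl⟩
      have hε : ∀ᶠ n in (𝒰 : Filter ℕ), ε n < t := hC.lim.eventually (gt_mem_nhds ht)
      filter_upwards [hC.com, hε] with n h2 h3 x hx
      have h4 := h2 x hx.1 hx.2
      have h5 : hs (M.U (γ s) n * x - x * M.U (γ s) n) ≤ M.e γ n x :=
        Finset.single_le_sum (f := fun s => hs (M.U (γ s) n * x - x * M.U (γ s) n))
          (fun _ _ => hs_nonneg _) (Finset.mem_univ s)
      have h6 : ε n * M.d n ≤ t * M.d n := mul_le_mul_of_nonneg_right h3.le (hdpos n).le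
      linarith
  -- commutators with the minimal projections
  have hcom : ∀ g : G, Tendsto (fun n => (∑ j, hs (M.U g n * c n j - c n j * M.U g n)) / M.d n) 𝒰
      (𝓝 0) := by
    intro g
    obtain ⟨C, hC0, hgl⟩ := hcomA g
    refine HC7.tendsto_zero_of_bd (fun n => div_nonneg
      (Finset.sum_nonneg fun _ _ => hs_nonneg _) (hdpos n).le) hC0 fun t ht => ?_
    filter_upwards [hgl t ht] with n hn
    rw [div_le_iff₀ (hdpos n)]
    have h2 := en_sum_le (fun _ : Fin 1 => M.U g n) (c n) (C * t * M.d n) ?_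
    · simpa [en] using h2
    · intro σ hσ
      have h3 := hn (∑ j, σ j • c n j)
        (sum_mem fun j _ => SMulMemClass.smul_mem _ (hcA n j)) (by
          rw [HC7.sign_un (hcp n) (hcc n) (hc1 n) σ hσ]
          exact Le_refl _)
      simpa [en] using h3
  -- partial sums of the minimal projections
  have hpr : ∀ n (J : Finset (Fin (N n))), IsPr (∑ j ∈ J, c n j) := by
    intro n J
    refine ⟨?_, ?_⟩
    · rw [Matrix.conjTranspose_sum]
      exact Finset.sum_congr rfl fun j _ => (hcp n j).1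
    · rw [Finset.sum_mul]
      refine Finset.sum_congr rfl fun i hi => ?_
      rw [Finset.mul_sum, Finset.sum_eq_single i]
      · exact (hcp n i).2
      · intro j _ hj
        exact hcc n i j hj.symm
      · intro h
        exact absurd hi h
  have htrc : ∀ g : G, Tendsto (fun n => (∑ j, ‖Matrix.trace (M.U g n * c n j) -
      (tr (c n j) : ℂ) * χ g‖) / (M.d n : ℝ)) 𝒰 (𝓝 0) := by
    intro g
    refine sum_tr M N c (fun J g => ?_) g
    refine sub_tr M hχ hM (fun n => ∑ j ∈ J n, c n j) (fun n => hpr n (J n)) (fun g => ?_) g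
    obtain ⟨C, hC0, hgl⟩ := hcomA g
    refine HC7.tendsto_zero_of_bd (fun n => div_nonneg (hs_nonneg _) (hdpos n).le) hC0
      fun t ht => ?_
    filter_upwards [hgl t ht] with n hn
    rw [div_le_iff₀ (hdpos n)]
    exact hn _ (sum_mem fun j _ => hcA n j) (pr_sq_le_one (hpr n (J n)))
  -- the energies
  have hEn : ∀ᶠ n in (𝒰 : Filter ℕ), ∑ j, en (fun s => M.U (γ s) n) (c n j) ≤ ε n * M.d n := by
    filter_upwards [hC.com] with n hn
    refine en_sum_le _ (c n) _ fun σ hσ => hn _ (sum_mem fun j _ =>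
      SMulMemClass.smul_mem _ (hcA n j)) ?_
    rw [HC7.sign_un (hcp n) (hcc n) (hc1 n) σ hσ]
    exact Le_refl _
  -- the bad indices
  let bad : ℕ → ∀ n, Fin (N n) → Prop := fun m n j => ∃ x : Mt (M.d n), c n j * x * c n j = x ∧
    Le (xᴴ * x) 1 ∧ ∀ z : ℂ, K0 * ∑ s, hs (c n j * M.U (γ s) n * x - x * M.U (γ s) n * c n j) +
      (1 / ((m : ℝ) + 1)) * tr (c n j) ≤ hs (x - z • c n j)
  have hbad : ∀ m, Tendsto (fun n => (∑ j, if bad m n j then tr (c n j) else 0) / M.d n) 𝒰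
      (𝓝 0) := by
    intro m
    have hm : (0 : ℝ) < m + 1 := by positivity
    have hK : 0 ≤ (m + 1 : ℝ) * (4 * K0 + 1) :=
      mul_nonneg hm.le (by linarith [hC.K0pos])
    refine HC7.tendsto_zero_of_bd (fun n => div_nonneg
      (Finset.sum_nonneg fun j _ => ?_) (hdpos n).le) hK fun t ht => ?_
    · split_ifs
      · exact (hw n j).le
      · exact le_rfl
    · have hε : ∀ᶠ n in (𝒰 : Filter ℕ), ε n < t := hC.lim.eventually (gt_mem_nhds ht)
      filter_upwards [hEn, hC.near, hε] with n h1 h2 h3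
      have h4 := typical_erg (fun s => M.U (γ s) n) (fun s => M.un (γ s) n) (A n) K0 (ε n)
        (ε n * M.d n) hC.K0pos (fun x hx => by
          obtain ⟨a, ha, _, hxa⟩ := h2 x hx
          exact ⟨a, ha, hxa⟩) (c n) (hcp n) (hcc n) (hc1 n) (hcmin n) h1 (1 / ((m : ℝ) + 1))
        (by positivity) (Finset.univ.filter fun j => bad m n j)
        (fun j hj => (Finset.mem_filter.1 hj).2)
      rw [Finset.sum_filter] at h4
      rw [div_le_iff₀ (hdpos n)]
      have h5 : ε n * M.d n ≤ t * M.d n := mul_le_mul_of_nonneg_right h3.le (hdpos n).le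
      have h6 : (∑ j, if bad m n j then tr (c n j) else 0) =
          (m + 1) * (1 / ((m : ℝ) + 1) * ∑ j, if bad m n j then tr (c n j) else 0) := by
        field_simp
      rw [h6]
      have h7 : (4 * K0 + 1) * (ε n * M.d n) ≤ (4 * K0 + 1) * (t * M.d n) :=
        mul_le_mul_of_nonneg_left h5 (by linarith [hC.K0pos])
      calc (m + 1) * (1 / ((m : ℝ) + 1) * ∑ j, if bad m n j then tr (c n j) else 0)
          ≤ (m + 1) * (4 * K0 * (ε n * M.d n) + ε n * M.d n) :=
            mul_le_mul_of_nonneg_left h4 hm.le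
        _ ≤ (m + 1) * ((4 * K0 + 1) * (t * M.d n)) :=
            mul_le_mul_of_nonneg_left (by linarith) hm.le
        _ = (m + 1) * (4 * K0 + 1) * t * M.d n := by ring
  -- the selection
  obtain ⟨f, hf⟩ := exists_surjective_nat ((G × G) ⊕ (G ⊕ (ℕ ⊕ G)))
  let Fι : ((G × G) ⊕ (G ⊕ (ℕ ⊕ G))) → ∀ n, Fin (N n) → ℝ := fun i n j =>
    Sum.elim (fun p : G × G => hs ((M.U (p.1 * p.2) n - M.U p.1 n * M.U p.2 n) * c n j))
      (Sum.elim (fun g : G => hs (M.U g n * c n j - c n j * M.U g n))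
        (Sum.elim (fun m : ℕ => if bad m n j then tr (c n j) else 0)
          (fun g : G => ‖Matrix.trace (M.U g n * c n j) - (tr (c n j) : ℂ) * χ g‖))) i
  have hFι0 : ∀ i n j, 0 ≤ Fι i n j := by
    rintro (p | g | m | g) n j
    · exact hs_nonneg ((M.U (p.1 * p.2) n - M.U p.1 n * M.U p.2 n) * c n j)
    · exact hs_nonneg (M.U g n * c n j - c n j * M.U g n)
    · change 0 ≤ if bad m n j then tr (c n j) else 0
      split_ifs
      · exact (hw n j).le
      · exact le_rfl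
    · exact norm_nonneg (Matrix.trace (M.U g n * c n j) - (tr (c n j) : ℂ) * χ g)
  have hFιlim : ∀ i, Tendsto (fun n => (∑ j, Fι i n j) / M.d n) 𝒰 (𝓝 0) := by
    rintro (p | g | m | g)
    · have h1 := M.mul p.1 p.2
      refine h1.congr fun n => ?_
      rw [← HC7.sum_hs_mul (hcp n) (hc1 n) (M.U (p.1 * p.2) n - M.U p.1 n * M.U p.2 n)]
      rfl
    · exact hcom g
    · exact hbad m
    · exact htrc g
  obtain ⟨j, hj, -⟩ := selection hU (fun n => M.d n) hdpos N (fun n j => tr (c n j)) hw hsum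
    (fun m => Fι (f m)) (fun m => hFι0 (f m)) (fun m => hFιlim (f m))
    (fun n j => tr (c n j)) (fun n j => by linarith [hw n j]) 1 one_pos
    (Filter.Eventually.of_forall fun n => by rw [one_mul, hsum])
  have hjι : ∀ i, Tendsto (fun n => Fι i n (j n) / tr (c n (j n))) 𝒰 (𝓝 0) := by
    intro i
    obtain ⟨m, rfl⟩ := hf i
    exact hj m
  -- the corner
  choose D Θ hD hDtr hT1 hT2 using fun n => corner_iso (c n (j n)) (hcp n (j n)) (hcne n (j n))
  choose V hVu hVb using fun (g : G) n => corner_un hUni (c n (j n)) (hcp n (j n)) (Θ n) (hT1 n)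
    (hT2 n) (M.U g n) (M.un g n)
  have hDpos : ∀ n, (0 : ℝ) < D n := fun n => by exact_mod_cast hD n
  have hα : ∀ g : G, Tendsto (fun n => hs (M.U g n * c n (j n) - c n (j n) * M.U g n) / D n) 𝒰
      (𝓝 0) := by
    intro g
    refine (hjι (Sum.inr (Sum.inl g))).congr fun n => ?_
    rw [hDtr n]
    rfl
  have hβ : ∀ g h : G, Tendsto (fun n => hs ((M.U (g * h) n - M.U g n * M.U h n) * c n (j n)) /
      D n) 𝒰 (𝓝 0) := by
    intro g h
    refine (hjι (Sum.inl (g, h))).congr fun n => ?_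
    rw [hDtr n]
    rfl
  let M' : Mdl G 𝒰 :=
    { d := D
      pos := hD
      U := V
      un := hVu
      mul := by
        intro g h
        refine squeeze_zero (fun n => div_nonneg (hs_nonneg _) (hDpos n).le) (fun n => ?_)
          (g := fun n => 8 * (hs (M.U (g * h) n * c n (j n) - c n (j n) * M.U (g * h) n) / D n +
            hs ((M.U (g * h) n - M.U g n * M.U h n) * c n (j n)) / D n +
            hs (M.U h n * c n (j n) - c n (j n) * M.U h n) / D n +
            hs (M.U g n * c n (j n) - c n (j n) * M.U g n) / D n +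
            hs (M.U h n * c n (j n) - c n (j n) * M.U h n) / D n)) ?_
        · have h1 := HC7.mul_bd (hcp n (j n)) (hT1 n) (hT2 n) (M.un g n) (M.un h n) (hVu g n)
            (hVb g n) (hVb h n) (hVb (g * h) n)
          have h2 := div_le_div_of_nonneg_right h1 (hDpos n).le
          refine h2.trans (le_of_eq ?_)
          ring
        · have h3 := (((((hα (g * h)).add (hβ g h)).add (hα h)).add (hα g)).add (hα h)).const_mul
            (8 : ℝ)
          simpa using h3 }
  -- ergodicity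
  let T : ℕ → Set ℝ := fun n => {τ | 0 ≤ τ ∧ ∀ x : Mt (D n), Le (xᴴ * x) 1 →
    ∃ z : ℂ, hs (x - z • 1) ≤ 2 * K0 * M'.e γ n x + τ * D n}
  have hT0 : ∀ n, (1 : ℝ) ∈ T n := by
    intro n
    refine ⟨zero_le_one, fun x hx => ⟨0, ?_⟩⟩
    rw [zero_smul, sub_zero, one_mul]
    have h1 : hs x ≤ D n := by
      rw [hs_eq_tr, ← tr_one (D n)]
      exact Le_tr hx
    have h2 : 0 ≤ 2 * K0 * M'.e γ n x :=
      mul_nonneg (by linarith [hC.K0pos]) (en_nonneg _ _)
    linarith
  have hTinf : Tendsto (fun n => sInf (T n)) 𝒰 (𝓝 0) := by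
    have hδ : Tendsto (fun n => ∑ s, hs (M.U (γ s) n * c n (j n) - c n (j n) * M.U (γ s) n) / D n)
        𝒰 (𝓝 0) := by
      have h1 := tendsto_finsetSum (Finset.univ : Finset (Fin k)) fun s _ => hα (γ s)
      simpa using h1
    refine HC7.tendsto_zero_of_bd (C := 8 * K0 + 1)
      (fun n => Real.sInf_nonneg fun x hx => hx.1) (by linarith [hC.K0pos]) fun t ht => ?_
    obtain ⟨m, hm⟩ := exists_nat_one_div_lt ht
    have h2 : ∀ᶠ n in (𝒰 : Filter ℕ), ¬ bad m n (j n) := by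
      have h3 := (hjι (Sum.inr (Sum.inr (Sum.inl m)))).eventually (gt_mem_nhds (zero_lt_one' ℝ))
      filter_upwards [h3] with n hn hb
      have h4 : Fι (Sum.inr (Sum.inr (Sum.inl m))) n (j n) = tr (c n (j n)) := by
        change (if bad m n (j n) then tr (c n (j n)) else 0) = _
        rw [if_pos hb]
      rw [h4, div_self (hw n (j n)).ne'] at hn
      exact lt_irrefl _ hn
    have h3 := hδ.eventually (gt_mem_nhds ht)
    filter_upwards [h2, h3] with n hn1 hn2
    refine (csInf_le ⟨0, fun x hx => hx.1⟩ (?_ : 8 * K0 * t + t ∈ T n)).trans (by linarith)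
    refine ⟨by nlinarith [hC.K0pos], fun x hx => ?_⟩
    obtain ⟨z, hz⟩ := HC7.erg_bd (hcp n (j n)) (hT1 n) (hT2 n) (fun s => M.U (γ s) n)
      (fun s => V (γ s) n) (fun s => hVb (γ s) n) K0 (1 / ((m : ℝ) + 1)) hC.K0pos hn1 x hx
    refine ⟨z, hz.trans ?_⟩
    have h4 : ∑ s, hs (M.U (γ s) n * c n (j n) - c n (j n) * M.U (γ s) n) ≤ t * D n := by
      rw [← Finset.sum_div, div_lt_iff₀ (hDpos n)] at hn2
      exact hn2.le
    have h5 : 1 / ((m : ℝ) + 1) * tr (c n (j n)) ≤ t * D n := by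
      rw [← hDtr n]
      exact mul_le_mul_of_nonneg_right hm.le (hDpos n).le
    have h6 := mul_le_mul_of_nonneg_left h4 (show 0 ≤ 8 * K0 by linarith [hC.K0pos])
    have h7 : M'.e γ n x = en (fun s => V (γ s) n) x := rfl
    rw [h7]
    linarith
  refine ⟨M', 2 * K0, fun n => sInf (T n) + 1 / ((n : ℝ) + 1), ⟨by linarith [hC.K0pos], ?_, ?_⟩, ?_⟩
  · have h1 : Tendsto (fun n : ℕ => 1 / ((n : ℝ) + 1)) 𝒰 (𝓝 0) := by
      refine tendsto_one_div_add_atTop_nhds_zero_nat.mono_left ?_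
      rw [← Nat.cofinite_eq_atTop]
      exact hU
    simpa using hTinf.add h1
  · refine Filter.Eventually.of_forall fun n x hx => ?_
    have hpos : (0 : ℝ) < 1 / ((n : ℝ) + 1) := by positivity
    obtain ⟨τ, ⟨hτ0, hτ1⟩, hτ⟩ := exists_lt_of_csInf_lt ⟨1, hT0 n⟩ (lt_add_of_pos_right _ hpos)
    obtain ⟨z, hz⟩ := hτ1 x hx
    refine ⟨z, hz.trans ?_⟩
    have h1 : τ * D n ≤ (sInf (T n) + 1 / ((n : ℝ) + 1)) * D n :=
      mul_le_mul_of_nonneg_right hτ.le (hDpos n).le
    change _ ≤ 2 * K0 * M'.e γ n x + (sInf (T n) + 1 / ((n : ℝ) + 1)) * D n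
    linarith
  · intro g
    have h1 : Tendsto (fun n => √(hs (M.U g n * c n (j n) - c n (j n) * M.U g n) / D n) +
        ‖Matrix.trace (M.U g n * c n (j n)) - (tr (c n (j n)) : ℂ) * χ g‖ / tr (c n (j n))) 𝒰
        (𝓝 0) := by
      have h2 := (hα g).sqrt
      rw [Real.sqrt_zero] at h2
      have h3 := h2.add (hjι (Sum.inr (Sum.inr (Sum.inr g))))
      rw [add_zero] at h3
      exact h3
    refine tendsto_iff_norm_sub_tendsto_zero.2 (squeeze_zero (fun n => norm_nonneg _) (fun n => ?_) h1)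
    have hD0 : ((D n : ℝ) : ℂ) ≠ 0 := by exact_mod_cast (hDpos n).ne'
    have h4 := T4.tr_bd (hT1 n) (hT2 n) (hVb g n)
    have e1 : Matrix.trace (V g n) / ((D n : ℝ) : ℂ) - χ g =
        (Matrix.trace (V g n) - Matrix.trace (M.U g n * c n (j n))) / ((D n : ℝ) : ℂ) +
        (Matrix.trace (M.U g n * c n (j n)) - ((D n : ℝ) : ℂ) * χ g) / ((D n : ℝ) : ℂ) := by
      field_simp
      ring
    have e2 : (M'.d n : ℂ) = ((D n : ℝ) : ℂ) := by
      change ((D n : ℕ) : ℂ) = _
      push_cast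
      rfl
    change ‖Matrix.trace (V g n) / (M'.d n : ℂ) - χ g‖ ≤ _
    rw [e2, e1]
    refine (norm_add_le _ _).trans (add_le_add ?_ ?_)
    · rw [norm_div, Complex.norm_real, Real.norm_of_nonneg (hDpos n).le, Real.sqrt_div (hs_nonneg _),
        div_le_div_iff₀ (hDpos n) (Real.sqrt_pos.2 (hDpos n))]
      calc _ ≤ (√(D n : ℝ) * √(hs (M.U g n * c n (j n) - c n (j n) * M.U g n))) * √(D n : ℝ) :=
            mul_le_mul_of_nonneg_right h4 (Real.sqrt_nonneg _)
        _ = √(hs (M.U g n * c n (j n) - c n (j n) * M.U g n)) * (√(D n : ℝ) * √(D n : ℝ)) := by ring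
        _ = _ := by rw [Real.mul_self_sqrt (hDpos n).le]
    · rw [norm_div, Complex.norm_real, Real.norm_of_nonneg (hDpos n).le, ← hDtr n]

end Helper418TRC
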