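import Pool.Agent.Helper418_TRC.Defs

set_option autoImplicit false

namespace Helper418TRC

open Matrix Filter Topology Pool.Agent.W661.RC Pool.Agent.W683.RC Helper418HL
open scoped ComplexOrder

/-- TARGET -/
theorem mdl_of_emb {G : Type} [Group G] [Countable G] {χ : G → ℂ} (h : Emb χ) {𝒰 : Ultrafilter ℕ}
    (hU : (𝒰 : Filter ℕ) ≤ cofinite) : ∃ M : Mdl G 𝒰, TrTo M χ := by
  classical
  obtain ⟨f, hf⟩ := exists_surjective_nat G
  let A : ℕ → Finset G := fun n => (Finset.range n).image f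
  have hAg : ∀ g : G, ∀ᶠ n in (𝒰 : Filter ℕ), g ∈ A n := by
    intro g
    obtain ⟨k, rfl⟩ := hf g
    have h1 : ∀ᶠ n in (cofinite : Filter ℕ), k < n := by
      rw [Nat.cofinite_eq_atTop]
      exact eventually_gt_atTop k
    filter_upwards [hU h1] with n hn
    exact Finset.mem_image_of_mem f (Finset.mem_range.2 hn)
  have hε : ∀ n : ℕ, (0 : ℝ) < 1 / ((n : ℝ) + 1) := fun n => by positivity
  have hlim : Tendsto (fun n : ℕ => 1 / ((n : ℝ) + 1)) 𝒰 (𝓝 0) := by
    have h0 : Tendsto (fun n : ℕ => 1 / ((n : ℝ) + 1)) atTop (𝓝 0) :=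
      tendsto_one_div_add_atTop_nhds_zero_nat
    exact h0.mono_left (by rw [← Nat.cofinite_eq_atTop]; exact hU : (𝒰 : Filter ℕ) ≤ atTop)
  choose m hm φ h1 h2 h3 using fun n => h (A n) (1 / ((n : ℝ) + 1)) (hε n)
  have hmpos : ∀ n, (0 : ℝ) < (m n : ℝ) := fun n => by exact_mod_cast hm n
  have hmul : ∀ g k, Tendsto (fun n => hs (φ n (g * k) - φ n g * φ n k) / (m n : ℝ)) 𝒰 (𝓝 0) := by
    intro g k
    refine tendsto_of_tendsto_of_tendsto_of_le_of_le' tendsto_const_nhds hlim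
      (Eventually.of_forall fun n => div_nonneg (hs_nonneg _) (Nat.cast_nonneg _)) ?_
    filter_upwards [hAg g, hAg k] with n hg hk
    rw [div_le_iff₀ (hmpos n)]
    exact h2 n g hg k hk
  refine ⟨⟨m, fun n => hm n, fun g n => φ n g, fun g n => h1 n g, hmul⟩, ?_⟩
  intro g
  show Tendsto (fun n => Matrix.trace (φ n g) / (m n : ℂ)) 𝒰 (𝓝 (χ g))
  rw [tendsto_iff_norm_sub_tendsto_zero]
  refine tendsto_of_tendsto_of_tendsto_of_le_of_le' tendsto_const_nhds hlim
    (Eventually.of_forall fun n => norm_nonneg _) ?_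
  filter_upwards [hAg g] with n hg
  have hne : (m n : ℂ) ≠ 0 := by exact_mod_cast (hmpos n).ne'
  have e : Matrix.trace (φ n g) / (m n : ℂ) - χ g
      = (Matrix.trace (φ n g) - m n * χ g) / (m n : ℂ) := by
    field_simp
  rw [e, norm_div, Complex.norm_natCast, div_le_iff₀ (hmpos n)]
  exact h3 n g hg

end Helper418TRC
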