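import Pool.Agent.Helper418_TRC.Defs

set_option autoImplicit false

namespace Helper418TRC

open Matrix Filter Topology Pool.Agent.W661.RC Pool.Agent.W683.RC Helper418HL
open scoped ComplexOrder

namespace T6

variable {G : Type} [Group G]

lemma dlt_char : IsChar (dlt : G → ℂ) where
  one := by simp [dlt]
  conj g h := by
    have hiff : h * g * h⁻¹ = 1 ↔ g = 1 := by
      constructor
      · intro e
        have h1 : h⁻¹ * (h * g * h⁻¹) * h = h⁻¹ * 1 * h := by rw [e]
        simpa [mul_assoc] using h1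
      · rintro rfl
        simp
    by_cases hg : g = 1
    · subst hg
      simp
    · have hg' : ¬ (h * g * h⁻¹ = 1) := fun e => hg (hiff.1 e)
      simp only [dlt, if_neg hg, if_neg hg']
  pos s c := by
    classical
    have h : ∑ a ∈ s, ∑ b ∈ s, star (c a) * c b * (dlt (a⁻¹ * b) : ℂ) =
        ∑ a ∈ s, ((Complex.normSq (c a) : ℝ) : ℂ) := by
      refine Finset.sum_congr rfl fun a ha => ?_
      rw [Finset.sum_eq_single a]
      · rw [Complex.normSq_eq_conj_mul_self]
        simp [dlt]
      · intro b _ hb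
        have : ¬ (a⁻¹ * b = 1) := fun e => hb (inv_mul_eq_one.1 e).symm
        simp [dlt, this]
      · intro h
        exact absurd ha h
    unfold form
    rw [h, ← Complex.ofReal_sum]
    exact ⟨by rw [Complex.ofReal_re]; exact Finset.sum_nonneg fun a _ => Complex.normSq_nonneg _,
      Complex.ofReal_im _⟩

lemma inv_star {χ : G → ℂ} (hχ : IsChar χ) (a : G) : χ a⁻¹ = star (χ a) := by
  classical
  rcases eq_or_ne a 1 with rfl | ha
  · rw [inv_one, hχ.one, star_one]
  · have key : ∀ w : ℂ, (star w * χ a + w * χ a⁻¹).im = 0 := by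
      intro w
      have h1 := (hχ.pos {1, a} (fun x => if x = 1 then w else 1)).2
      unfold form at h1
      rw [Finset.sum_pair ha.symm, Finset.sum_pair ha.symm, Finset.sum_pair ha.symm] at h1
      simp only [if_true, if_neg ha, inv_one, one_mul, mul_one, star_one, inv_mul_cancel, hχ.one] at h1
      have h2 : (star w * w).im = 0 := by
        simp [Complex.mul_im]
        ring
      simp only [Complex.add_im, Complex.one_im, h2] at h1
      rw [Complex.add_im]
      linarith
    have k1 := key 1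
    have k2 := key Complex.I
    simp [Complex.mul_im] at k1 k2
    apply Complex.ext
    · simp
      linarith
    · simp
      linarith

lemma sum_ins {φ : G → ℂ} (hφ : IsChar φ) (z : ℂ) (T : Finset G) (h1 : (1 : G) ∉ T)
    (hT : ∀ a ∈ T, φ a = z) :
    (T.card : ℝ) ^ 2 * Complex.normSq z ≤ (∑ a ∈ T, ∑ b ∈ T, φ (a⁻¹ * b)).re := by
  classical
  set w : ℂ := -(T.card : ℂ) * z with hw
  have h := (hφ.pos (insert 1 T) (fun x => if x = 1 then w else 1)).1
  have hne : ∀ a ∈ T, a ≠ 1 := fun a ha e => h1 (e ▸ ha)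
  have e1 : ∑ a ∈ insert 1 T, ∑ b ∈ insert 1 T,
      star ((fun x => if x = 1 then w else 1) a) * (fun x => if x = 1 then w else 1) b * φ (a⁻¹ * b) =
      (star w * w + (T.card : ℂ) * (star w * z)) + ((T.card : ℂ) * (w * star z) +
        ∑ a ∈ T, ∑ b ∈ T, φ (a⁻¹ * b)) := by
    rw [Finset.sum_insert h1]
    congr 1
    · rw [Finset.sum_insert h1]
      simp only [if_true, inv_one, one_mul, hφ.one, mul_one]
      congr 1
      rw [Finset.sum_congr rfl (g := fun _ => star w * z) (fun b hb => by
        rw [if_neg (hne b hb), mul_one, hT b hb]), Finset.sum_const, nsmul_eq_mul]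
    · rw [Finset.sum_congr rfl (g := fun a => w * star z + ∑ b ∈ T, φ (a⁻¹ * b)) (fun a ha => by
        rw [Finset.sum_insert h1]
        simp only [if_true, if_neg (hne a ha), star_one, one_mul, mul_one]
        congr 1
        · rw [inv_star hφ, hT a ha]
        · refine Finset.sum_congr rfl fun b hb => ?_
          rw [if_neg (hne b hb), one_mul]), Finset.sum_add_distrib, Finset.sum_const, nsmul_eq_mul]
  unfold form at h
  rw [e1] at h
  have e2 : (star w * w + (T.card : ℂ) * (star w * z)) + ((T.card : ℂ) * (w * star z)) =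
      ((-((T.card : ℝ) ^ 2 * Complex.normSq z) : ℝ) : ℂ) := by
    push_cast
    rw [Complex.normSq_eq_conj_mul_self, hw]
    simp only [star_mul', star_neg, Complex.star_def, map_natCast]
    ring
  rw [← add_assoc, e2, Complex.add_re, Complex.ofReal_re] at h
  linarith

lemma sum_dlt (T : Finset G) : ∑ a ∈ T, ∑ b ∈ T, (dlt (a⁻¹ * b) : ℂ) = T.card := by
  classical
  rw [Finset.sum_congr rfl (g := fun _ => (1 : ℂ)) (fun a ha => by
    rw [Finset.sum_eq_single a]
    · simp [dlt]
    · intro b _ hb
      have : ¬ (a⁻¹ * b = 1) := fun e => hb (inv_mul_eq_one.1 e).symm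
      simp [dlt, this]
    · intro h
      exact absurd ha h)]
  simp

end T6

/-- TARGET -/
theorem ext_delta {G : Type} [Group G]
    (hicc : ∀ g : G, g ≠ 1 → {x : G | ∃ h, x = h * g * h⁻¹}.Infinite) :
    IsExt (dlt : G → ℂ) := by
  classical
  refine ⟨T6.dlt_char, fun φ ψ hφ hψ t ht0 ht1 h g => ?_⟩
  rcases eq_or_ne g 1 with rfl | hg
  · rw [hφ.one, T6.dlt_char.one]
  have hz : Complex.normSq (φ g) = 0 := by
    by_contra hne
    have hpos : 0 < t * Complex.normSq (φ g) :=
      mul_pos ht0 (lt_of_le_of_ne (Complex.normSq_nonneg _) (Ne.symm hne))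
    obtain ⟨N, hN⟩ := exists_nat_gt (1 / (t * Complex.normSq (φ g)))
    have hN0 : (0 : ℝ) < N := lt_trans (by positivity) hN
    obtain ⟨T, hTs, hTc⟩ := (hicc g hg).exists_subset_card_eq N
    have h1 : (1 : G) ∉ T := by
      intro hm
      obtain ⟨k, hk⟩ := hTs (Finset.mem_coe.2 hm)
      apply hg
      have h2 : k⁻¹ * 1 * k = k⁻¹ * (k * g * k⁻¹) * k := by rw [← hk]
      simpa [mul_assoc] using h2.symm
    have hT : ∀ a ∈ T, φ a = φ g := by
      intro a ha
      obtain ⟨k, hk⟩ := hTs (Finset.mem_coe.2 ha)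
      rw [hk]
      exact hφ.conj g k
    have hS := T6.sum_ins hφ (φ g) T h1 hT
    have hS' := (hψ.pos T (fun _ => 1)).1
    unfold form at hS'
    simp only [star_one, one_mul] at hS'
    have hsum : (t : ℂ) * ∑ a ∈ T, ∑ b ∈ T, φ (a⁻¹ * b) +
        (1 - (t : ℂ)) * ∑ a ∈ T, ∑ b ∈ T, ψ (a⁻¹ * b) = (T.card : ℂ) := by
      rw [← T6.sum_dlt T, Finset.mul_sum, Finset.mul_sum, ← Finset.sum_add_distrib]
      refine Finset.sum_congr rfl fun a _ => ?_
      rw [Finset.mul_sum, Finset.mul_sum, ← Finset.sum_add_distrib]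
      exact Finset.sum_congr rfl fun b _ => (h _).symm
    have hre := congrArg Complex.re hsum
    have e1 : ((1 : ℂ) - (t : ℂ)) = ((1 - t : ℝ) : ℂ) := by push_cast; ring
    rw [Complex.add_re, e1, Complex.re_ofReal_mul, Complex.re_ofReal_mul, Complex.natCast_re] at hre
    rw [hTc] at hS hre
    have h3 : t * ((N : ℝ) ^ 2 * Complex.normSq (φ g)) ≤ N := by
      have h4 := mul_le_mul_of_nonneg_left hS ht0.le
      have h5 := mul_nonneg (by linarith : (0 : ℝ) ≤ 1 - t) hS'
      linarith
    have h6 : (N : ℝ) * (t * Complex.normSq (φ g)) ≤ 1 := by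
      by_contra hcon
      push Not at hcon
      have : (N : ℝ) * 1 < N * ((N : ℝ) * (t * Complex.normSq (φ g))) :=
        mul_lt_mul_of_pos_left hcon hN0
      nlinarith
    rw [div_lt_iff₀ hpos] at hN
    linarith
  rw [Complex.normSq_eq_zero.1 hz]
  simp [dlt, hg]

end Helper418TRC
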