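import Pool.Agent.Helper418_TRC.Defs

set_option autoImplicit false

namespace Helper418TRC

open Matrix Filter Topology Pool.Agent.W661.RC Pool.Agent.W683.RC Helper418HL
open scoped ComplexOrder

/-- TARGET -/
theorem inf_delta {G : Type} [Group G] [Infinite G] : IsInf (dlt : G → ℂ) := by
  intro N
  refine ⟨fun i => Infinite.natEmbedding G i, ?_⟩
  have h : (Matrix.of fun i j : Fin N => (dlt ((Infinite.natEmbedding G i)⁻¹ *
      Infinite.natEmbedding G j) : ℂ)) = 1 := by
    ext i j
    rw [Matrix.of_apply, Matrix.one_apply]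
    unfold dlt
    by_cases hij : i = j
    · subst hij
      rw [if_pos rfl, inv_mul_cancel, if_pos rfl]
    · rw [if_neg hij, if_neg]
      intro h
      apply hij
      have h1 : Infinite.natEmbedding G (i : ℕ) = Infinite.natEmbedding G (j : ℕ) :=
        inv_mul_eq_one.1 h
      exact Fin.ext ((Infinite.natEmbedding G).injective h1)
  show (Matrix.of fun i j : Fin N => (dlt ((Infinite.natEmbedding G i)⁻¹ *
      Infinite.natEmbedding G j) : ℂ)).det ≠ 0
  rw [h, Matrix.det_one]
  exact one_ne_zero

end Helper418TRC
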