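import Pool.Agent.Helper418_TRC.Defs

set_option autoImplicit false

namespace Helper418TRC

open Matrix Filter Topology Pool.Agent.W661.RC Pool.Agent.W683.RC Helper418HL
open scoped ComplexOrder

namespace T7

/-- the Gram matrix of more than `d²` matrices of size `d` is singular -/
lemma gram_det_zero {d N : ℕ} (hN : d * d < N) (V : Fin N → Mt d) (c : ℂ) :
    (Matrix.of fun i j => Matrix.trace ((V i)ᴴ * V j) / c).det = 0 := by
  have hli : ¬ LinearIndependent ℂ V := by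
    intro h
    have h1 := h.fintype_card_le_finrank
    rw [Module.finrank_matrix, Fintype.card_fin, Fintype.card_fin, Module.finrank_self] at h1
    omega
  rw [Fintype.not_linearIndependent_iff] at hli
  obtain ⟨x, hx, i0, hi0⟩ := hli
  rw [← Matrix.exists_mulVec_eq_zero_iff]
  refine ⟨x, fun h => hi0 (congrFun h i0), ?_⟩
  ext i
  have e : ∑ j, Matrix.trace ((V i)ᴴ * V j) / c * x j =
      Matrix.trace ((V i)ᴴ * ∑ j, x j • V j) / c := by
    rw [Matrix.mul_sum, Matrix.trace_sum, Finset.sum_div]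
    refine Finset.sum_congr rfl fun j _ => ?_
    rw [Matrix.mul_smul, Matrix.trace_smul, smul_eq_mul]
    ring
  simp only [Matrix.mulVec, dotProduct, Matrix.of_apply, Pi.zero_apply]
  rw [e, hx, Matrix.mul_zero, Matrix.trace_zero, zero_div]

/-- the inner products of the unitaries of the model converge to the values of the character -/
lemma entry_tendsto {G : Type} [Group G] {𝒰 : Ultrafilter ℕ} (M : Mdl G 𝒰) {χ : G → ℂ}
    (hM : TrTo M χ) (a b : G) :
    Tendsto (fun n => Matrix.trace ((M.U a n)ᴴ * M.U b n) / (M.d n : ℂ)) 𝒰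
      (𝓝 (χ (a⁻¹ * b))) := by
  have h1 := hM (a⁻¹ * b)
  have h2 := M.mul a (a⁻¹ * b)
  simp only [mul_inv_cancel_left] at h2
  have h3 : Tendsto (fun n => Matrix.trace ((M.U a n)ᴴ * M.U b n) / (M.d n : ℂ) -
      Matrix.trace (M.U (a⁻¹ * b) n) / (M.d n : ℂ)) 𝒰 (𝓝 0) := by
    have h4 : Tendsto (fun n => √(hs (M.U b n - M.U a n * M.U (a⁻¹ * b) n) / (M.d n : ℝ))) 𝒰
        (𝓝 0) := by
      have h := (Real.continuous_sqrt.tendsto 0).comp h2
      rw [Real.sqrt_zero] at h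
      exact h
    refine squeeze_zero_norm (fun n => ?_) h4
    have hd : (0 : ℝ) < (M.d n : ℝ) := by exact_mod_cast M.pos n
    have e : Matrix.trace ((M.U a n)ᴴ * M.U b n) / (M.d n : ℂ) -
        Matrix.trace (M.U (a⁻¹ * b) n) / (M.d n : ℂ) =
        Matrix.trace ((M.U a n)ᴴ * (M.U b n - M.U a n * M.U (a⁻¹ * b) n)) / (M.d n : ℂ) := by
      rw [Matrix.mul_sub, ← Matrix.mul_assoc, M.un, Matrix.one_mul, Matrix.trace_sub, sub_div]
    have hU : hs (M.U a n) = (M.d n : ℝ) := by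
      rw [hs_eq, M.un]
      simp
    have h5 := norm_trace_le (M.U a n) (M.U b n - M.U a n * M.U (a⁻¹ * b) n)
    rw [hU] at h5
    rw [e, norm_div, Complex.norm_natCast, Real.sqrt_div (hs_nonneg _),
      div_le_div_iff₀ hd (Real.sqrt_pos.2 hd)]
    have h6 : √(M.d n : ℝ) * √(M.d n : ℝ) = (M.d n : ℝ) := Real.mul_self_sqrt hd.le
    calc ‖Matrix.trace ((M.U a n)ᴴ * (M.U b n - M.U a n * M.U (a⁻¹ * b) n))‖ * √(M.d n : ℝ)
        ≤ (√(M.d n : ℝ) * √(hs (M.U b n - M.U a n * M.U (a⁻¹ * b) n))) * √(M.d n : ℝ) :=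
          mul_le_mul_of_nonneg_right h5 (Real.sqrt_nonneg _)
      _ = √(hs (M.U b n - M.U a n * M.U (a⁻¹ * b) n)) * (√(M.d n : ℝ) * √(M.d n : ℝ)) := by ring
      _ = √(hs (M.U b n - M.U a n * M.U (a⁻¹ * b) n)) * (M.d n : ℝ) := by rw [h6]
  have h6 := h3.add h1
  simpa using h6

end T7

/-- TARGET -/
theorem dim_inf {G : Type} [Group G] {𝒰 : Ultrafilter ℕ} (M : Mdl G 𝒰) {χ : G → ℂ}
    (hM : TrTo M χ) (hinf : IsInf χ) : Tendsto M.d 𝒰 atTop := by
  rw [tendsto_atTop]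
  intro B
  by_contra hB
  have hB' : ∀ᶠ n in (𝒰 : Filter ℕ), M.d n < B :=
    (Ultrafilter.eventually_not.2 hB).mono fun n hn => not_le.1 hn
  obtain ⟨s, hs⟩ := hinf (B * B + 1)
  have hmat : Tendsto (fun n => (Matrix.of fun i j =>
      Matrix.trace ((M.U (s i) n)ᴴ * M.U (s j) n) / (M.d n : ℂ) :
      Matrix (Fin (B * B + 1)) (Fin (B * B + 1)) ℂ)) 𝒰
      (𝓝 (Matrix.of fun i j => χ ((s i)⁻¹ * s j))) := by
    exact tendsto_pi_nhds.2 fun i => tendsto_pi_nhds.2 fun j =>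
      T7.entry_tendsto M hM (s i) (s j)
  have hdet := (((continuous_id
    (X := Matrix (Fin (B * B + 1)) (Fin (B * B + 1)) ℂ)).matrix_det).tendsto
      (Matrix.of fun i j => χ ((s i)⁻¹ * s j))).comp hmat
  have hne := hdet.eventually_ne hs
  obtain ⟨n, hn1, hn2⟩ := (hB'.and hne).exists
  refine hn2 (T7.gram_det_zero ?_ (fun i => M.U (s i) n) _)
  have h7 : M.d n * M.d n ≤ B * B := Nat.mul_le_mul hn1.le hn1.le
  omega

end Helper418TRC
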