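import Pool.Agent.Helper418_TRC.Defs

set_option autoImplicit false

namespace Helper418TRC.T8

open Matrix Filter Topology Pool.Agent.W661.RC Pool.Agent.W683.RC Helper418HL Helper418TRC
open scoped ComplexOrder

theorem hs_nn {m n : Type} [Fintype m] [Fintype n] (x : Matrix m n ℂ) : 0 ≤ hs x := by
  unfold hs
  exact Finset.sum_nonneg fun _ _ => Finset.sum_nonneg fun _ _ => sq_nonneg _

/-- the family `u` is good up to `1 / (m + 1)` -/
structure Gd {G : Type} [Group G] (f : ℕ → G) (χ : G → ℂ) {k : ℕ} (γ : Fin k → G) (K0 : ℝ)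
    (r m : ℕ) (u : G → Mt r) : Prop where
  un : ∀ g, (u g)ᴴ * u g = 1
  mul : ∀ i, i < m → ∀ j, j < m →
    hs (u (f i * f j) - u (f i) * u (f j)) / (r : ℝ) ≤ 1 / ((m : ℝ) + 1)
  tr : ∀ i, i < m → ‖Matrix.trace (u (f i)) / (r : ℂ) - χ (f i)‖ ≤ 1 / ((m : ℝ) + 1)
  er : ∀ x : Mt r, Le (xᴴ * x) 1 →
    ∃ z : ℂ, hs (x - z • 1) ≤ K0 * en (fun s => u (γ s)) x + 1 / ((m : ℝ) + 1) * (r : ℝ)

section
variable {G : Type} [Group G] (f : ℕ → G) (χ : G → ℂ) {k : ℕ} (γ : Fin k → G) (K0 : ℝ)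

open Classical in
/-- the best index -/
noncomputable def mu (r : ℕ) : ℕ := Nat.findGreatest (fun m => ∃ u : G → Mt r, Gd f χ γ K0 r m u) r

open Classical in
/-- the best family -/
noncomputable def uu (r : ℕ) : G → Mt r :=
  if h : ∃ u : G → Mt r, Gd f χ γ K0 r (mu f χ γ K0 r) u then h.choose else fun _ => 1

theorem uu_un (r : ℕ) (g : G) : (uu f χ γ K0 r g)ᴴ * uu f χ γ K0 r g = 1 := by
  unfold uu
  split_ifs with h
  · exact h.choose_spec.un g
  · simp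

theorem mu_spec {r m : ℕ} (hm : m ≤ r) (h : ∃ u : G → Mt r, Gd f χ γ K0 r m u) :
    m ≤ mu f χ γ K0 r ∧ Gd f χ γ K0 r (mu f χ γ K0 r) (uu f χ γ K0 r) := by
  classical
  have h1 : ∃ u : G → Mt r, Gd f χ γ K0 r (mu f χ γ K0 r) u := by
    have := Nat.findGreatest_spec (P := fun m => ∃ u : G → Mt r, Gd f χ γ K0 r m u) hm h
    unfold mu
    exact this
  refine ⟨?_, ?_⟩
  · have := Nat.le_findGreatest (P := fun m => ∃ u : G → Mt r, Gd f χ γ K0 r m u) hm h
    unfold mu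
    exact this
  · have e : uu f χ γ K0 r = h1.choose := by
      unfold uu
      rw [dif_pos h1]
    rw [e]
    exact h1.choose_spec

end

end Helper418TRC.T8

namespace Helper418TRC

open Matrix Filter Topology Pool.Agent.W661.RC Pool.Agent.W683.RC Helper418HL
open scoped ComplexOrder

/-- TARGET -/
theorem push {G : Type} [Group G] [Countable G] {𝒰 : Ultrafilter ℕ}
    (hU : (𝒰 : Filter ℕ) ≤ cofinite) (M : Mdl G 𝒰) {χ : G → ℂ}
    (hM : TrTo M χ) (hd : Tendsto M.d 𝒰 atTop) {k : ℕ} (γ : Fin k → G) (K0 : ℝ) (ε : ℕ → ℝ)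
    (hE : Erg M γ K0 ε) :
    ∃ V : Ultrafilter ℕ, (V : Filter ℕ) ≤ cofinite ∧ ∃ M' : Mdl G V,
      M'.d = (fun n => max n 1) ∧ TrTo M' χ ∧ ∃ ε' : ℕ → ℝ, Erg M' γ K0 ε' := by
  classical
  obtain ⟨f, hf⟩ := exists_surjective_nat G
  obtain ⟨V, hVd⟩ : ∃ V : Ultrafilter ℕ, V = 𝒰.map M.d := ⟨_, rfl⟩
  have hVc : (V : Filter ℕ) = Filter.map M.d 𝒰 := by rw [hVd, Ultrafilter.coe_map]
  -- the claim
  have hgood : ∀ m : ℕ, ∀ᶠ r in (V : Filter ℕ), m ≤ T8.mu f χ γ K0 (max r 1) ∧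
      T8.Gd f χ γ K0 (max r 1) (T8.mu f χ γ K0 (max r 1)) (T8.uu f χ γ K0 (max r 1)) := by
    intro m
    rw [hVc, Filter.eventually_map]
    have hm0 : (0 : ℝ) < 1 / ((m : ℝ) + 1) := by positivity
    have h1 : ∀ᶠ n in (𝒰 : Filter ℕ), m ≤ M.d n := hd.eventually_ge_atTop m
    have h2 : ∀ᶠ n in (𝒰 : Filter ℕ), ∀ i ∈ {i : ℕ | i < m}, ∀ j ∈ {j : ℕ | j < m},
        hs (M.U (f i * f j) n - M.U (f i) n * M.U (f j) n) / (M.d n : ℝ) ≤ 1 / ((m : ℝ) + 1) := by
      refine (Filter.eventually_all_finite (Set.finite_lt_nat m)).2 fun i _ => ?_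
      refine (Filter.eventually_all_finite (Set.finite_lt_nat m)).2 fun j _ => ?_
      exact (M.mul (f i) (f j)).eventually_le_const hm0
    have h3 : ∀ᶠ n in (𝒰 : Filter ℕ), ∀ i ∈ {i : ℕ | i < m},
        ‖Matrix.trace (M.U (f i) n) / (M.d n : ℂ) - χ (f i)‖ ≤ 1 / ((m : ℝ) + 1) := by
      refine (Filter.eventually_all_finite (Set.finite_lt_nat m)).2 fun i _ => ?_
      have h4 := (tendsto_iff_norm_sub_tendsto_zero.1 (hM (f i)))
      exact h4.eventually_le_const hm0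
    have h5 : ∀ᶠ n in (𝒰 : Filter ℕ), ε n ≤ 1 / ((m : ℝ) + 1) := hE.lim.eventually_le_const hm0
    filter_upwards [h1, h2, h3, h5, hE.near] with n a1 a2 a3 a5 a6
    have hmax : max (M.d n) 1 = M.d n := max_eq_left (M.pos n)
    rw [hmax]
    refine T8.mu_spec f χ γ K0 a1 ⟨fun g => M.U g n, ?_⟩
    refine ⟨fun g => M.un g n, fun i hi j hj => a2 i hi j hj, fun i hi => a3 i hi, ?_⟩
    intro x hx
    obtain ⟨z, hz⟩ := a6 x hx
    refine ⟨z, hz.trans ?_⟩
    have h7 : ε n * (M.d n : ℝ) ≤ 1 / ((m : ℝ) + 1) * (M.d n : ℝ) :=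
      mul_le_mul_of_nonneg_right a5 (Nat.cast_nonneg _)
    have h8 : M.e γ n x = en (fun s => M.U (γ s) n) x := rfl
    rw [h8]
    linarith
  have hmu : Tendsto (fun r => T8.mu f χ γ K0 (max r 1)) (V : Filter ℕ) atTop := by
    rw [Filter.tendsto_atTop]
    intro b
    filter_upwards [hgood b] with r hr
    exact hr.1
  have hlim : Tendsto (fun r => 1 / ((T8.mu f χ γ K0 (max r 1) : ℝ) + 1)) (V : Filter ℕ)
      (𝓝 0) := tendsto_one_div_add_atTop_nhds_zero_nat.comp hmu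
  refine ⟨V, ?_, ?_⟩
  · rw [hVc, Nat.cofinite_eq_atTop]
    exact hd
  refine ⟨{ d := fun n => max n 1
            pos := fun n => lt_of_lt_of_le one_pos (le_max_right n 1)
            U := fun g n => T8.uu f χ γ K0 (max n 1) g
            un := fun g n => T8.uu_un f χ γ K0 (max n 1) g
            mul := ?_ }, rfl, ?_, ?_⟩
  · intro g h
    obtain ⟨i, hi⟩ := hf g
    obtain ⟨j, hj⟩ := hf h
    refine squeeze_zero' (Filter.Eventually.of_forall fun r =>
      div_nonneg (T8.hs_nn _) (Nat.cast_nonneg _)) ?_ hlim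
    filter_upwards [hgood (i + j + 1)] with r hr
    have h1 := hr.2.mul i (by omega) j (by omega)
    rw [hi, hj] at h1
    exact h1
  · intro g
    obtain ⟨i, hi⟩ := hf g
    rw [tendsto_iff_norm_sub_tendsto_zero]
    refine squeeze_zero' (Filter.Eventually.of_forall fun r => norm_nonneg _) ?_ hlim
    filter_upwards [hgood (i + 1)] with r hr
    have h1 := hr.2.tr i (by omega)
    rw [hi] at h1
    exact h1
  · refine ⟨fun r => 1 / ((T8.mu f χ γ K0 (max r 1) : ℝ) + 1), ?_⟩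
    refine ⟨hE.K0pos, hlim, ?_⟩
    filter_upwards [hgood 0] with r hr
    intro x hx
    exact hr.2.er x hx

end Helper418TRC
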