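import Pool.Agent.Helper418_TRC.Defs

set_option autoImplicit false

namespace Helper418TRC.T9

open Matrix Filter Topology Pool.Agent.W661.RC Pool.Agent.W683.RC Helper418HL
open scoped ComplexOrder

theorem dist_le {d : ℕ} (hd : 0 < d) (x : Mt d) (z : ℂ) :
    hs (x - (Matrix.trace x / (d : ℂ)) • (1 : Mt d)) ≤ hs (x - z • (1 : Mt d)) := by
  set w := x - (Matrix.trace x / (d : ℂ)) • (1 : Mt d) with hw
  have hd0 : (d : ℂ) ≠ 0 := by
    exact_mod_cast hd.ne'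
  have htw : Matrix.trace w = 0 := by
    rw [hw, Matrix.trace_sub, Matrix.trace_smul, Matrix.trace_one, Fintype.card_fin, smul_eq_mul,
      div_mul_cancel₀ _ hd0, sub_self]
  have hx : x - z • (1 : Mt d) = w + (Matrix.trace x / (d : ℂ) - z) • (1 : Mt d) := by
    rw [hw, sub_smul]
    abel
  rw [hx]
  set v := Matrix.trace x / (d : ℂ) - z with hv
  rw [hs_eq_norm, hs_eq_norm, vc_add, norm_add_sq (𝕜 := ℂ)]
  have h0 : inner ℂ (vc w) (vc (v • (1 : Mt d))) = 0 := by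
    rw [inner_vc, Matrix.mul_smul, Matrix.mul_one, Matrix.trace_smul, Matrix.trace_conjTranspose,
      htw, star_zero, smul_zero]
  rw [h0]
  have : 0 ≤ ‖vc (v • (1 : Mt d))‖ ^ 2 := by positivity
  simp only [map_zero, mul_zero, add_zero]
  linarith

theorem e_tendsto {G : Type} [Group G] {𝒰 : Ultrafilter ℕ} (M : Mdl G 𝒰) {k : ℕ} (γ : Fin k → G)
    (y : ∀ n, Mt (M.d n)) (hc : AC M y) :
    Tendsto (fun n => M.e γ n (y n) / (M.d n : ℝ)) 𝒰 (𝓝 0) := by
  have h1 : Tendsto (fun n => ∑ s : Fin k,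
      hs (M.U (γ s) n * y n - y n * M.U (γ s) n) / (M.d n : ℝ)) 𝒰 (𝓝 (∑ s : Fin k, (0 : ℝ))) :=
    tendsto_finsetSum _ (fun s _ => hc (γ s))
  rw [Finset.sum_const_zero] at h1
  refine h1.congr ?_
  intro n
  unfold Mdl.e en
  rw [Finset.sum_div]

theorem contr {G : Type} [Group G] {𝒰 : Ultrafilter ℕ} (M : Mdl G 𝒰) {k : ℕ} (γ : Fin k → G)
    {K0 : ℝ} {ε : ℕ → ℝ} (hE : Erg M γ K0 ε) (y : ∀ n, Mt (M.d n))
    (hy : ∀ n, Le ((y n)ᴴ * y n) 1) (hc : AC M y) :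
    Tendsto (fun n => hs (y n - (Matrix.trace (y n) / (M.d n : ℂ)) • (1 : Mt (M.d n))) /
      (M.d n : ℝ)) 𝒰 (𝓝 0) := by
  have h1 := e_tendsto M γ y hc
  have h2 : Tendsto (fun n => K0 * (M.e γ n (y n) / (M.d n : ℝ)) + ε n) 𝒰 (𝓝 0) := by
    have := (h1.const_mul K0).add hE.lim
    simpa using this
  refine tendsto_of_tendsto_of_tendsto_of_le_of_le' tendsto_const_nhds h2 ?_ ?_
  · refine Eventually.of_forall (fun n => ?_)
    have := hs_nonneg (y n - (Matrix.trace (y n) / (M.d n : ℂ)) • (1 : Mt (M.d n)))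
    positivity
  · refine hE.near.mono (fun n hn => ?_)
    obtain ⟨z, hz⟩ := hn (y n) (hy n)
    have hd : (0 : ℝ) < (M.d n : ℝ) := by exact_mod_cast M.pos n
    have h3 := le_trans (dist_le (M.pos n) (y n) z) hz
    rw [div_le_iff₀ hd]
    have h4 : (K0 * (M.e γ n (y n) / (M.d n : ℝ)) + ε n) * (M.d n : ℝ) =
        K0 * M.e γ n (y n) + ε n * (M.d n : ℝ) := by
      field_simp
    rw [h4]
    exact h3

end Helper418TRC.T9

namespace Helper418TRC

open Matrix Filter Topology Pool.Agent.W661.RC Pool.Agent.W683.RC Helper418HL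
open scoped ComplexOrder

/-- TARGET -/
theorem triv_of_erg {G : Type} [Group G] {𝒰 : Ultrafilter ℕ} (M : Mdl G 𝒰) {k : ℕ} (γ : Fin k → G)
    {K0 : ℝ} {ε : ℕ → ℝ} (hE : Erg M γ K0 ε) (x : ∀ n, Mt (M.d n)) (B : ℝ)
    (hx : ∀ n, Le ((x n)ᴴ * x n) ((B : ℂ) • (1 : Mt (M.d n)))) (hc : AC M x) :
    Tendsto (fun n => hs (x n - (Matrix.trace (x n) / (M.d n : ℂ)) • (1 : Mt (M.d n))) /
      (M.d n : ℝ)) 𝒰 (𝓝 0) := by
  set B' := max B 1 with hB'
  have hB1 : 1 ≤ B' := le_max_right _ _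
  have hB0 : 0 < B' := by linarith
  set c : ℝ := (√B')⁻¹ with hcdef
  have hs0 : 0 < √B' := Real.sqrt_pos.2 hB0
  have hc2 : c ^ 2 * B' = 1 := by
    rw [hcdef, inv_pow, Real.sq_sqrt hB0.le, inv_mul_cancel₀ hB0.ne']
  let y : ∀ n, Mt (M.d n) := fun n => (c : ℂ) • x n
  have hyd : ∀ n, y n = (c : ℂ) • x n := fun n => rfl
  have hy : ∀ n, Le ((y n)ᴴ * y n) 1 := by
    intro n
    have h1 : Le ((x n)ᴴ * x n) ((B' : ℂ) • (1 : Mt (M.d n))) :=
      Le_trans (hx n) (Le_smul_right Matrix.PosSemidef.one (le_max_left _ _))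
    have h2 := Le_smul h1 (sq_nonneg c)
    have e1 : (y n)ᴴ * y n = ((c ^ 2 : ℝ) : ℂ) • ((x n)ᴴ * x n) := by
      rw [hyd, Matrix.conjTranspose_smul, Matrix.smul_mul, Matrix.mul_smul, smul_smul]
      congr 1
      rw [Complex.star_def, Complex.conj_ofReal]
      push_cast
      ring
    have e2 : ((c ^ 2 : ℝ) : ℂ) • ((B' : ℂ) • (1 : Mt (M.d n))) = 1 := by
      rw [smul_smul, ← Complex.ofReal_mul, hc2, Complex.ofReal_one, one_smul]
    rw [e1, ← e2]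
    exact h2
  have hcy : AC M y := by
    intro g
    have h1 := (hc g).const_mul (c ^ 2)
    rw [mul_zero] at h1
    refine h1.congr (fun n => ?_)
    have e : M.U g n * y n - y n * M.U g n = (c : ℂ) • (M.U g n * x n - x n * M.U g n) := by
      rw [hyd, Matrix.mul_smul, Matrix.smul_mul, smul_sub]
    rw [e, hs_smul_real, mul_div_assoc]
  have h1 := (T9.contr M γ hE y hy hcy).const_mul B'
  rw [mul_zero] at h1
  refine h1.congr (fun n => ?_)
  have e : y n - (Matrix.trace (y n) / (M.d n : ℂ)) • (1 : Mt (M.d n)) =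
      (c : ℂ) • (x n - (Matrix.trace (x n) / (M.d n : ℂ)) • (1 : Mt (M.d n))) := by
    rw [hyd, Matrix.trace_smul, smul_sub, smul_smul, smul_eq_mul, mul_div_assoc]
  rw [e, hs_smul_real]
  have h2 : B' * (c ^ 2 * hs (x n - (Matrix.trace (x n) / (M.d n : ℂ)) • (1 : Mt (M.d n))) /
      (M.d n : ℝ)) = (c ^ 2 * B') * (hs (x n - (Matrix.trace (x n) / (M.d n : ℂ)) •
        (1 : Mt (M.d n))) / (M.d n : ℝ)) := by ring
  rw [h2, hc2, one_mul]

end Helper418TRC
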