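import Pool.Agent.Helper418_TRC.Stmt
import Pool.Agent.Helper418_TRC.T4
import Pool.Agent.Helper418_TRC.T5
import Pool.Agent.Helper418_TRC.T6
import Pool.Agent.Helper418_TRC.T6b
import Pool.Agent.Helper418_TRC.T7
import Pool.Agent.Helper418_TRC.T8
import Pool.Agent.Helper418_TRC.T9
import Pool.Agent.Helper418_HL.HB
import Pool.Agent.W661.RC.All

/-!
# Irreducible embeddings of factors generated by Kazhdan groups
-/

set_option autoImplicit false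

namespace Helper418TRC

open Matrix Filter Topology Pool.Agent.W661.RC Pool.Agent.W683.RC Helper418HL
open scoped ComplexOrder

/-- a model is a homomorphism -/
theorem isHom_of {G : Type} [Group G] {𝒰 : Ultrafilter ℕ} (M : Mdl G 𝒰) {χ : G → ℂ}
    (h : TrTo M χ) : IsHom 𝒰 M.d χ M.U :=
  ⟨M.un, M.mul, h⟩

/-- an ergodic model has trivial relative commutant -/
theorem trivCom_of {G : Type} [Group G] {𝒰 : Ultrafilter ℕ} (M : Mdl G 𝒰) {k : ℕ} (γ : Fin k → G)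
    {K0 : ℝ} {ε : ℕ → ℝ} (hE : Erg M γ K0 ε) : TrivCom 𝒰 M.d M.U := by
  rintro x ⟨B, hx⟩ hc
  exact triv_of_erg M γ hE x B hx hc

theorem exists_ultra : ∃ 𝒰 : Ultrafilter ℕ, (𝒰 : Filter ℕ) ≤ cofinite :=
  ⟨hyperfilter ℕ, hyperfilter_le_cofinite⟩

theorem main {G : Type} [Group G] [Countable G] (hfg : Group.FG G) (hT : HasT G) {χ : G → ℂ}
    (hχ : IsExt χ) (hinf : IsInf χ) (hemb : Emb χ) :
    (∀ 𝒰 : Ultrafilter ℕ, Free 𝒰 →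
      ∃ d : ℕ → ℕ, (∀ n, 0 < d n) ∧ Tendsto d 𝒰 atTop ∧ Irr 𝒰 d χ) ∧
    ∃ 𝒱 : Ultrafilter ℕ, Free 𝒱 ∧ Irr 𝒱 (fun n => max n 1) χ := by
  obtain ⟨k, γ, hγ⟩ : ∃ (k : ℕ) (γ : Fin k → G), Subgroup.closure (Set.range γ) = ⊤ := by
    obtain ⟨S, hS, hfin⟩ := Group.fg_iff.1 hfg
    obtain ⟨k, γ, -, hγ⟩ := hfin.fin_param
    exact ⟨k, γ, by rw [hγ, hS]⟩
  have key : ∀ 𝒰 : Ultrafilter ℕ, (𝒰 : Filter ℕ) ≤ cofinite → ∃ (M : Mdl G 𝒰) (K0 : ℝ) (ε : ℕ → ℝ),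
      Erg M γ K0 ε ∧ TrTo M χ := by
    intro 𝒰 hU
    obtain ⟨M, hM⟩ := mdl_of_emb hemb hU
    obtain ⟨A, K0, ε, hC⟩ := ctl_exists All.mid All.alg hU hT M γ hγ
    exact corner_thm2 All.uni hU M γ hγ hC hχ hM
  refine ⟨fun 𝒰 hU => ?_, ?_⟩
  · obtain ⟨M, K0, ε, hE, hM⟩ := key 𝒰 hU
    exact ⟨M.d, M.pos, dim_inf M hM hinf, M.U, isHom_of M hM, trivCom_of M γ hE⟩
  · obtain ⟨𝒰, hU⟩ := exists_ultra
    obtain ⟨M, K0, ε, hE, hM⟩ := key 𝒰 hU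
    obtain ⟨𝒱, hV, M', hd, hM', ε', hE'⟩ := push hU M hM (dim_inf M hM hinf) γ K0 ε hE
    refine ⟨𝒱, hV, ?_⟩
    have h1 := isHom_of M' hM'
    have h2 := trivCom_of M' γ hE'
    obtain ⟨d, pos, U, un, mul⟩ := M'
    change d = _ at hd
    subst hd
    exact ⟨U, h1, h2⟩

end Helper418TRC
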