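import Pool.Agent.Helper418_TRC.Defs

/-!
# Homomorphisms into unitary groups of matrix ultraproducts and their relative commutants
-/

set_option autoImplicit false

namespace Helper418TRC

open Matrix Filter Topology Pool.Agent.W661.RC Pool.Agent.W683.RC Helper418HL

/-- the square of the normalised 2-norm of a matrix -/
noncomputable def n2 {d : ℕ} (x : Mt d) : ℝ := hs x / (d : ℝ)

/-- the normalised trace -/
noncomputable def nt {d : ℕ} (x : Mt d) : ℂ := Matrix.trace x / (d : ℂ)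

/-- The unitary matrices `u g n` of size `d n` define a homomorphism `π` of the group `G` into the
unitary group of the tracial ultraproduct `∏_𝒰 M_{d n}(ℂ)` with `τ(π(g)) = χ(g)`. -/
structure IsHom {G : Type} [Group G] (𝒰 : Ultrafilter ℕ) (d : ℕ → ℕ) (χ : G → ℂ)
    (u : G → ∀ n, Mt (d n)) : Prop where
  un : ∀ g n, (u g n)ᴴ * u g n = 1
  mul : ∀ g h, Tendsto (fun n => n2 (u (g * h) n - u g n * u h n)) 𝒰 (𝓝 0)
  tr : ∀ g, Tendsto (fun n => nt (u g n)) 𝒰 (𝓝 (χ g))

/-- the sequence `x` is bounded in operator norm: `x* x ≤ B` -/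
def Bd {d : ℕ → ℕ} (x : ∀ n, Mt (d n)) : Prop :=
  ∃ B : ℝ, ∀ n, Le ((x n)ᴴ * x n) ((B : ℂ) • (1 : Mt (d n)))

/-- The relative commutant of `π(G)` in `∏_𝒰 M_{d n}(ℂ)` is trivial: every operator norm bounded
sequence `x` of matrices which asymptotically commutes with the `u g` in the normalised 2-norm is
asymptotically equal to the sequence of the scalars `τ(x n) 1`. -/
def TrivCom {G : Type} [Group G] (𝒰 : Ultrafilter ℕ) (d : ℕ → ℕ) (u : G → ∀ n, Mt (d n)) : Prop :=
  ∀ x : ∀ n, Mt (d n), Bd x → (∀ g, Tendsto (fun n => n2 (u g n * x n - x n * u g n)) 𝒰 (𝓝 0)) →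
    Tendsto (fun n => n2 (x n - nt (x n) • (1 : Mt (d n)))) 𝒰 (𝓝 0)

/-- There is a homomorphism `π : G → U(∏_𝒰 M_{d n}(ℂ))` with `τ ∘ π = χ` and trivial relative
commutant. -/
def Irr {G : Type} [Group G] (𝒰 : Ultrafilter ℕ) (d : ℕ → ℕ) (χ : G → ℂ) : Prop :=
  ∃ u : G → ∀ n, Mt (d n), IsHom 𝒰 d χ u ∧ TrivCom 𝒰 d u

/-- all conjugacy classes except that of `1` are infinite -/
def ICC (G : Type) [Group G] : Prop :=
  ∀ g : G, g ≠ 1 → {x : G | ∃ h, x = h * g * h⁻¹}.Infinite

/-- `χ` is an extreme character with infinite dimensional GNS space, or the characteristic function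
of the identity of an infinite ICC group. -/
def Adm {G : Type} [Group G] (χ : G → ℂ) : Prop :=
  (IsExt χ ∧ IsInf χ) ∨ (Infinite G ∧ ICC G ∧ χ = dlt)

/-- the free ultrafilters on `ℕ` -/
def Free (𝒰 : Ultrafilter ℕ) : Prop := (𝒰 : Filter ℕ) ≤ cofinite

end Helper418TRC
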