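import Pool.Agent.Helper418_TRC.Defs

set_option autoImplicit false

namespace Helper418TRC

open Matrix Filter Topology Pool.Agent.W661.RC Pool.Agent.W683.RC Helper418HL
open scoped ComplexOrder

namespace T1

variable {G : Type} [Group G] {𝒰 : Ultrafilter ℕ}

/-- small sequences -/
def Sm (M : Mdl G 𝒰) (x : ∀ n, Mt (M.d n)) : Prop :=
  Tendsto (fun n => hs (x n) / (M.d n : ℝ)) 𝒰 (𝓝 0)

variable {M : Mdl G 𝒰}

lemma Sm.sub {x y : ∀ n, Mt (M.d n)} (hx : Sm M x) (hy : Sm M y) :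
    Sm M (fun n => x n - y n) := by
  have h1 : Tendsto (fun n => 2 * (hs (x n) / (M.d n : ℝ)) + 2 * (hs (y n) / (M.d n : ℝ))) 𝒰
      (𝓝 (2 * 0 + 2 * 0)) :=
    (Tendsto.const_mul 2 hx).add (Tendsto.const_mul 2 hy)
  rw [mul_zero, add_zero] at h1
  refine squeeze_zero (fun n => div_nonneg (hs_nonneg _) (Nat.cast_nonneg _)) (fun n => ?_) h1
  have h2 := hs_sub_le (x n) (y n)
  rw [← mul_div_assoc, ← mul_div_assoc, ← add_div]
  exact div_le_div_of_nonneg_right h2 (Nat.cast_nonneg _)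

lemma Sm.congr {x y : ∀ n, Mt (M.d n)} (hx : Sm M x) (h : ∀ n, hs (y n) = hs (x n)) :
    Sm M y := by
  unfold Sm at *
  simpa only [h] using hx

lemma tr_small {x y : ∀ n, Mt (M.d n)} (hx : Sm M x) {C : ℝ}
    (hy : ∀ n, hs (y n) ≤ C * M.d n) :
    Tendsto (fun n => Matrix.trace ((y n)ᴴ * x n) / (M.d n : ℂ)) 𝒰 (𝓝 0) := by
  rw [tendsto_zero_iff_norm_tendsto_zero]
  have h1 : Tendsto (fun n => √C * √(hs (x n) / (M.d n : ℝ))) 𝒰 (𝓝 (√C * √0)) :=
    Tendsto.const_mul _ (Tendsto.sqrt hx)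
  rw [Real.sqrt_zero, mul_zero] at h1
  refine squeeze_zero (fun n => norm_nonneg _) (fun n => ?_) h1
  have hd : (0 : ℝ) < M.d n := by exact_mod_cast M.pos n
  rw [norm_div, Complex.norm_natCast, div_le_iff₀ hd]
  refine (norm_trace_le _ _).trans ?_
  have h2 : √(hs (y n)) ≤ √C * √(M.d n) := by
    rw [← Real.sqrt_mul' _ hd.le]
    exact Real.sqrt_le_sqrt (hy n)
  have h3 : √(hs (x n)) = √(hs (x n) / M.d n) * √(M.d n) := by
    rw [← Real.sqrt_mul' _ hd.le, div_mul_cancel₀ _ hd.ne']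
  calc √(hs (y n)) * √(hs (x n))
      ≤ (√C * √(M.d n)) * (√(hs (x n) / M.d n) * √(M.d n)) := by
        rw [← h3]; exact mul_le_mul_of_nonneg_right h2 (Real.sqrt_nonneg _)
    _ = √C * √(hs (x n) / M.d n) * (√(M.d n) * √(M.d n)) := by ring
    _ = _ := by rw [Real.mul_self_sqrt hd.le]

lemma hs_id (d : ℕ) : hs (1 : Mt d) = d := by
  rw [hs_eq_tr, Matrix.conjTranspose_one, Matrix.one_mul, tr_one]

lemma hs_pr_le {d : ℕ} {p : Mt d} (hp : IsPr p) : hs p ≤ 1 * d := by
  have h1 := hs_mul_pr_le_self hp (1 : Mt d)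
  rw [Matrix.one_mul, hs_id] at h1
  linarith

lemma lim_eq {x y : ∀ n, Mt (M.d n)} (hxy : Sm M (fun n => x n - y n))
    {p : ∀ n, Mt (M.d n)} (hp : ∀ n, IsPr (p n)) {z : ℂ}
    (hx : Tendsto (fun n => Matrix.trace (x n * p n) / (M.d n : ℂ)) 𝒰 (𝓝 z)) :
    Tendsto (fun n => Matrix.trace (y n * p n) / (M.d n : ℂ)) 𝒰 (𝓝 z) := by
  have h0 := tr_small hxy (y := p) (C := 1) (fun n => hs_pr_le (hp n))
  have h1 := hx.sub h0
  rw [sub_zero] at h1
  refine h1.congr fun n => ?_
  rw [(hp n).1, Matrix.mul_sub, Matrix.trace_sub, Matrix.trace_mul_comm (p n) (x n),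
    Matrix.trace_mul_comm (p n) (y n)]
  ring

end T1

open T1

/-- TARGET -/
theorem char_lim {G : Type} [Group G] {𝒰 : Ultrafilter ℕ} (M : Mdl G 𝒰) (p : ∀ n, Mt (M.d n))
    (hp : ∀ n, IsPr (p n)) (hac : AC M p) (α : ℝ) (hα : 0 < α)
    (hlim : Tendsto (fun n => tr (p n) / (M.d n : ℝ)) 𝒰 (𝓝 α)) (φ : G → ℂ)
    (hφ : ∀ g, Tendsto (fun n => Matrix.trace (M.U g n * p n) / (M.d n : ℂ)) 𝒰 (𝓝 (α * φ g))) :
    IsChar φ := by
  have hα' : (α : ℂ) ≠ 0 := by exact_mod_cast hα.ne'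
  have hmul : ∀ g h k : G, g * h = k → Sm M (fun n => M.U k n - M.U g n * M.U h n) := by
    rintro g h k rfl
    exact M.mul g h
  refine ⟨?_, ?_, ?_⟩
  · -- one
    have h1 : Sm M (fun n => M.U 1 n - 1) := by
      refine (hmul 1 1 1 (mul_one 1)).congr fun n => ?_
      have e : M.U 1 n - M.U 1 n * M.U 1 n = M.U 1 n * (1 - M.U 1 n) := by
        rw [Matrix.mul_sub, Matrix.mul_one]
      rw [e, hs_unit_mul (M.un 1 n), hs_sub_comm]
    have h2 := lim_eq h1 hp (hφ 1)
    have h3 : Tendsto (fun n => Matrix.trace (1 * p n) / (M.d n : ℂ)) 𝒰 (𝓝 (α : ℂ)) := by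
      have h4 := (Complex.continuous_ofReal.tendsto α).comp hlim
      refine h4.congr fun n => ?_
      simp only [Function.comp]
      rw [Matrix.one_mul, trace_eq_tr (hp n).1]
      push_cast
      rfl
    have h5 := tendsto_nhds_unique h2 h3
    have h6 : (α : ℂ) * φ 1 = α * 1 := by rw [h5, mul_one]
    exact mul_left_cancel₀ hα' h6
  · -- conjugation
    intro g h
    have e1 : h * g * h⁻¹ * h = h * g := by group
    have h1 : Sm M (fun n => (M.U (h * g) n - M.U h n * M.U g n) -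
        (M.U (h * g) n - M.U (h * g * h⁻¹) n * M.U h n)) :=
      (hmul h g _ rfl).sub (hmul _ h _ e1)
    have h2 : Sm M (fun n => M.U g n - (M.U h n)ᴴ * M.U (h * g * h⁻¹) n * M.U h n) := by
      refine h1.congr fun n => ?_
      have e2 : (M.U (h * g) n - M.U h n * M.U g n) -
          (M.U (h * g) n - M.U (h * g * h⁻¹) n * M.U h n) =
          M.U (h * g * h⁻¹) n * M.U h n - M.U h n * M.U g n := by abel
      rw [e2, ← hs_unit_mul (unit_conj (M.un h n))
        (M.U (h * g * h⁻¹) n * M.U h n - M.U h n * M.U g n), Matrix.mul_sub,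
        ← Matrix.mul_assoc, ← Matrix.mul_assoc, M.un h n, Matrix.one_mul, hs_sub_comm]
    have h3 := lim_eq h2 hp (hφ g)
    have h4 : Sm M (fun n => M.U h n * p n * (M.U h n)ᴴ - p n) := by
      have h5 : Sm M (fun n => M.U h n * p n - p n * M.U h n) := hac h
      refine h5.congr fun n => ?_
      have e3 : M.U h n * p n * (M.U h n)ᴴ - p n =
          (M.U h n * p n - p n * M.U h n) * (M.U h n)ᴴ := by
        rw [Matrix.sub_mul, Matrix.mul_assoc (p n), unit_symm (M.un h n), Matrix.mul_one]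
      rw [e3, hs_mul_unit (unit_conj (M.un h n))]
    have h6 := tr_small h4 (y := fun n => (M.U (h * g * h⁻¹) n)ᴴ) (C := 1) (fun n => by
      rw [hs_conjTranspose, ← Matrix.mul_one (M.U (h * g * h⁻¹) n),
        hs_unit_mul (M.un _ n), hs_id, one_mul])
    have h7 := h3.sub h6
    rw [sub_zero] at h7
    have h8 : Tendsto (fun n => Matrix.trace (M.U (h * g * h⁻¹) n * p n) / (M.d n : ℂ)) 𝒰
        (𝓝 (α * φ g)) := by
      refine h7.congr fun n => ?_
      have e4 : Matrix.trace ((M.U h n)ᴴ * M.U (h * g * h⁻¹) n * M.U h n * p n) =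
          Matrix.trace (M.U (h * g * h⁻¹) n * (M.U h n * p n * (M.U h n)ᴴ)) := by
        rw [Matrix.mul_assoc, Matrix.mul_assoc, Matrix.trace_mul_comm]
        simp only [Matrix.mul_assoc]
      simp only [Matrix.conjTranspose_conjTranspose]
      rw [e4, Matrix.mul_sub, Matrix.trace_sub]
      ring
    have h9 := tendsto_nhds_unique (hφ (h * g * h⁻¹)) h8
    exact mul_left_cancel₀ hα' h9
  · -- positivity
    intro s c
    set S : ℂ := ∑ a ∈ s, ∑ b ∈ s, star (c a) * c b * φ (a⁻¹ * b) with hS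
    have hab : ∀ a b : G, Tendsto
        (fun n => Matrix.trace ((M.U a n)ᴴ * M.U b n * p n) / (M.d n : ℂ)) 𝒰
        (𝓝 (α * φ (a⁻¹ * b))) := by
      intro a b
      have h1 : Sm M (fun n => M.U (a⁻¹ * b) n - (M.U a n)ᴴ * M.U b n) := by
        refine (hmul a (a⁻¹ * b) b (by group)).congr fun n => ?_
        rw [← hs_unit_mul (unit_conj (M.un a n)) (M.U b n - M.U a n * M.U (a⁻¹ * b) n),
          Matrix.mul_sub, ← Matrix.mul_assoc, M.un a n, Matrix.one_mul, hs_sub_comm]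
      exact lim_eq h1 hp (hφ _)
    let V : ∀ n, Mt (M.d n) := fun n => ∑ b ∈ s, c b • M.U b n
    have hV : ∀ n, Matrix.trace ((V n)ᴴ * V n * p n) =
        ∑ a ∈ s, ∑ b ∈ s, star (c a) * c b * Matrix.trace ((M.U a n)ᴴ * M.U b n * p n) := by
      intro n
      simp only [V, Matrix.conjTranspose_sum, Matrix.conjTranspose_smul, Finset.sum_mul,
        Finset.mul_sum, Matrix.trace_sum, Matrix.smul_mul, Matrix.mul_smul, Matrix.trace_smul,
        smul_eq_mul]
      rw [Finset.sum_comm]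
      refine Finset.sum_congr rfl fun a _ => Finset.sum_congr rfl fun b _ => ?_
      ring
    have hVp : ∀ n, Matrix.trace ((V n)ᴴ * V n * p n) = ((hs (V n * p n) : ℝ) : ℂ) := by
      intro n
      rw [← trace_conjTranspose_mul_self, Matrix.conjTranspose_mul, (hp n).1]
      have e : p n * (V n)ᴴ * (V n * p n) = p n * ((V n)ᴴ * V n * p n) := by
        simp only [Matrix.mul_assoc]
      rw [e, Matrix.trace_mul_comm (p n), Matrix.mul_assoc _ (p n) (p n), (hp n).2]
    have hT : Tendsto (fun n => ((hs (V n * p n) / (M.d n : ℝ) : ℝ) : ℂ)) 𝒰 (𝓝 (α * S)) := by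
      have h1 : Tendsto (fun n => ∑ a ∈ s, ∑ b ∈ s, star (c a) * c b *
          (Matrix.trace ((M.U a n)ᴴ * M.U b n * p n) / (M.d n : ℂ))) 𝒰
          (𝓝 (∑ a ∈ s, ∑ b ∈ s, star (c a) * c b * (α * φ (a⁻¹ * b)))) :=
        tendsto_finsetSum _ fun a _ => tendsto_finsetSum _ fun b _ =>
          (hab a b).const_mul _
      have e1 : ∑ a ∈ s, ∑ b ∈ s, star (c a) * c b * (α * φ (a⁻¹ * b)) = α * S := by
        rw [hS, Finset.mul_sum]
        refine Finset.sum_congr rfl fun a _ => ?_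
        rw [Finset.mul_sum]
        refine Finset.sum_congr rfl fun b _ => ?_
        ring
      rw [e1] at h1
      refine h1.congr fun n => ?_
      rw [Complex.ofReal_div, ← hVp n, hV n, Finset.sum_div]
      refine Finset.sum_congr rfl fun a _ => ?_
      rw [Finset.sum_div]
      refine Finset.sum_congr rfl fun b _ => ?_
      rw [Complex.ofReal_natCast]
      ring
    have hre : Tendsto (fun n => hs (V n * p n) / (M.d n : ℝ)) 𝒰 (𝓝 (((α : ℂ) * S).re)) := by
      have := (Complex.continuous_re.tendsto _).comp hT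
      refine this.congr fun n => ?_
      simp only [Function.comp, Complex.ofReal_re]
    have him : Tendsto (fun _ : ℕ => (0 : ℝ)) 𝒰 (𝓝 (((α : ℂ) * S).im)) := by
      have := (Complex.continuous_im.tendsto _).comp hT
      refine this.congr fun n => ?_
      simp only [Function.comp, Complex.ofReal_im]
    have h1 : 0 ≤ ((α : ℂ) * S).re :=
      ge_of_tendsto' hre fun n => div_nonneg (hs_nonneg _) (Nat.cast_nonneg _)
    have h2 : ((α : ℂ) * S).im = 0 := tendsto_nhds_unique him tendsto_const_nhds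
    rw [Complex.re_ofReal_mul] at h1
    rw [Complex.im_ofReal_mul] at h2
    refine ⟨?_, ?_⟩
    · exact nonneg_of_mul_nonneg_right h1 hα
    · rcases mul_eq_zero.1 h2 with h3 | h3
      · exact absurd h3 hα.ne'
      · exact h3

end Helper418TRC

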